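import Mathlib

set_option autoImplicit false

open Set Filter Topology Function Cardinal

namespace Pool.Agent.MP_a8721e_gt

theorem mk_closure_lt {G : Type} [AddCommGroup G] (h2 : ∀ x : G, x + x = 0) (S : Set G)
    (hS : #S < 𝔠) : #(AddSubgroup.closure S) < 𝔠 := by
  have hneg : ∀ x : G, -x = x := fun x => neg_eq_of_add_eq_zero_left (h2 x)
  have hsub : ((AddSubgroup.closure S : AddSubgroup G) : Set G) ⊆
      range (fun l : List S => (l.map Subtype.val).sum) := by
    intro x hx
    induction hx using AddSubgroup.closure_induction with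
    | mem x hx => exact ⟨[⟨x, hx⟩], by simp⟩
    | zero => exact ⟨[], by simp⟩
    | add x y _ _ hx hy =>
      obtain ⟨l, rfl⟩ := hx
      obtain ⟨m, rfl⟩ := hy
      exact ⟨l ++ m, by simp⟩
    | neg x _ hx => rw [hneg]; exact hx
  calc #(AddSubgroup.closure S) ≤ #(range (fun l : List S => (l.map Subtype.val).sum)) :=
        mk_le_mk_of_subset hsub
    _ ≤ #(List S) := mk_range_le
    _ ≤ max ℵ₀ #S := mk_list_le_max _
    _ < 𝔠 := max_lt aleph0_lt_continuum hS

theorem exists_rec_seq {ι V : Type} [LinearOrder ι] [WellFoundedLT ι]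
    (Q : ι → Set V → V → Prop) (ok : Set V → Prop)
    (hok : ∀ (i : ι) (s : Iio i → V), ok (range s))
    (hQ : ∀ i W, ok W → ∃ v, Q i W v) :
    ∃ s : ι → V, ∀ i, Q i (s '' Iio i) (s i) := by
  classical
  let F : (i : ι) → ((j : ι) → j < i → V) → V := fun i r =>
    Classical.choose (hQ i (range (fun j : Iio i => r j.1 j.2)) (hok i _))
  let s : ι → V := (wellFounded_lt (α := ι)).fix F
  refine ⟨s, fun i => ?_⟩
  have h1 : s i = F i (fun j _ => s j) := (wellFounded_lt (α := ι)).fix_eq F i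
  have h2 : s '' Iio i = range (fun j : Iio i => s j.1) := image_eq_range _ _
  rw [h1, h2]
  exact Classical.choose_spec (hQ i (range (fun j : Iio i => s j.1)) (hok i _))

theorem exists_killing_subgroup {G : Type} [AddCommGroup G] (h2 : ∀ x : G, x + x = 0)
    (κ : Type) (hκ : #κ ≤ 𝔠) (E : Set G) (hE : #E < 𝔠) (P : κ → G → G → Prop)
    (hP : ∀ i, ∀ W : Set G, #W < 𝔠 → ∃ x y, P i x y ∧ x ∉ W ∧ y ∉ W ∧ x + y ∉ W) [Nonempty κ] :
    ∃ H : AddSubgroup G, E ⊆ H ∧ ∀ i, ∃ x y, P i x y ∧ x ∉ H ∧ y ∈ H := by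
  classical
  have hneg : ∀ x : G, -x = x := fun x => neg_eq_of_add_eq_zero_left (h2 x)
  let ι : Type := (𝔠 : Cardinal.{0}).ord.ToType
  have hι : #ι = 𝔠 := mk_ord_toType _
  obtain ⟨e⟩ : Nonempty (κ ↪ ι) := by
    rw [← Cardinal.le_def, hι]; exact hκ
  let σ : ι → κ := Function.invFun e
  have hσ : Surjective σ := Function.invFun_surjective e.injective
  let W : Set (G × G) → AddSubgroup G := fun T =>
    AddSubgroup.closure (E ∪ (Prod.fst '' T ∪ Prod.snd '' T))
  obtain ⟨s, hs⟩ := exists_rec_seq (ι := ι) (V := G × G)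
    (fun i T v => P (σ i) v.1 v.2 ∧ v.1 ∉ W T ∧ v.2 ∉ W T ∧ v.1 + v.2 ∉ W T)
    (fun T => #T < 𝔠)
    (fun i s => by
      refine lt_of_le_of_lt mk_range_le ?_
      have := mk_Iio_lt i (by simp [ι])
      rwa [hι] at this)
    (fun i T hT => by
      have : #(W T) < 𝔠 := by
        apply mk_closure_lt h2
        refine lt_of_le_of_lt (mk_union_le _ _) (add_lt_of_lt aleph0_le_continuum hE ?_)
        refine lt_of_le_of_lt (mk_union_le _ _) (add_lt_of_lt aleph0_le_continuum ?_ ?_)
        · exact lt_of_le_of_lt mk_image_le hT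
        · exact lt_of_le_of_lt mk_image_le hT
      obtain ⟨x, y, h⟩ := hP (σ i) (W T) this
      exact ⟨(x, y), h⟩)
  let K : Set ι → AddSubgroup G := fun I => AddSubgroup.closure (E ∪ (fun j => (s j).2) '' I)
  have hKmono : ∀ I I' : Set ι, I ⊆ I' → K I ≤ K I' := fun I I' h =>
    AddSubgroup.closure_mono (union_subset_union_right _ (image_mono h))
  have hKW : ∀ i, K (Iio i) ≤ W (s '' Iio i) := by
    intro i
    apply AddSubgroup.closure_mono
    apply union_subset_union_right
    rintro _ ⟨j, hj, rfl⟩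
    exact Or.inr ⟨s j, ⟨j, hj, rfl⟩, rfl⟩
  have hWmono : ∀ i j : ι, i ≤ j → W (s '' Iio i) ≤ W (s '' Iio j) := by
    intro i j hij
    apply AddSubgroup.closure_mono
    have : s '' Iio i ⊆ s '' Iio j := image_mono (Iio_subset_Iio hij)
    exact union_subset_union_right _ (union_subset_union (image_mono this) (image_mono this))
  have hxW : ∀ i j : ι, i < j → (s i).1 ∈ W (s '' Iio j) := fun i j hij =>
    AddSubgroup.subset_closure (Or.inr (Or.inl ⟨s i, ⟨i, hij, rfl⟩, rfl⟩))
  have hyW : ∀ i j : ι, i < j → (s i).2 ∈ W (s '' Iio j) := fun i j hij =>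
    AddSubgroup.subset_closure (Or.inr (Or.inr ⟨s i, ⟨i, hij, rfl⟩, rfl⟩))
  -- step
  have hstep : ∀ (b : ι) (z : G), z ∈ K (Iic b) → z ∈ K (Iio b) ∨ z + (s b).2 ∈ K (Iio b) := by
    intro b z hz
    induction hz using AddSubgroup.closure_induction with
    | mem x hx =>
      rcases hx with hx | ⟨j, hj, rfl⟩
      · exact Or.inl (AddSubgroup.subset_closure (Or.inl hx))
      · rcases lt_or_eq_of_le (mem_Iic.1 hj) with h | h
        · exact Or.inl (AddSubgroup.subset_closure (Or.inr ⟨j, h, rfl⟩))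
        · right
          simp only [h, h2]
          exact zero_mem _
    | zero => exact Or.inl (zero_mem _)
    | add x y _ _ hx hy =>
      rcases hx with hx | hx <;> rcases hy with hy | hy
      · exact Or.inl (add_mem hx hy)
      · right; rw [add_assoc]; exact add_mem hx hy
      · right; rw [add_right_comm]; exact add_mem hx hy
      · left
        have := add_mem hx hy
        rwa [add_add_add_comm, h2, add_zero] at this
    | neg x _ hx => rw [hneg]; exact hx
  have hlim : ∀ (I : Set ι) (z : G), z ∈ K I → z ∈ K ∅ ∨ ∃ b ∈ I, z ∈ K (Iic b) := by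
    intro I z hz
    induction hz using AddSubgroup.closure_induction with
    | mem x hx =>
      rcases hx with hx | ⟨j, hj, rfl⟩
      · exact Or.inl (AddSubgroup.subset_closure (Or.inl hx))
      · exact Or.inr ⟨j, hj, AddSubgroup.subset_closure (Or.inr ⟨j, mem_Iic.2 le_rfl, rfl⟩)⟩
    | zero => exact Or.inl (zero_mem _)
    | add x y _ _ hx hy =>
      rcases hx with hx | ⟨b, hb, hx⟩ <;> rcases hy with hy | ⟨c, hc, hy⟩
      · exact Or.inl (add_mem hx hy)
      · exact Or.inr ⟨c, hc, add_mem (hKmono _ _ (empty_subset _) hx) hy⟩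
      · exact Or.inr ⟨b, hb, add_mem hx (hKmono _ _ (empty_subset _) hy)⟩
      · rcases le_total b c with h | h
        · exact Or.inr ⟨c, hc, add_mem (hKmono _ _ (Iic_subset_Iic.2 h) hx) hy⟩
        · exact Or.inr ⟨b, hb, add_mem hx (hKmono _ _ (Iic_subset_Iic.2 h) hy)⟩
    | neg x _ hx => rw [hneg]; exact hx
  have hnot0 : ∀ a : ι, (s a).1 ∉ K ∅ := fun a h =>
    (hs a).2.1 (hKW a (hKmono _ _ (empty_subset _) h))
  have hnot : ∀ a b : ι, (s a).1 ∉ K (Iic b) := by
    intro a b
    induction b using WellFoundedLT.induction with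
    | ind b ih =>
      intro hz
      rcases hstep b _ hz with h | h
      · rcases hlim _ _ h with h | ⟨c, hc, h⟩
        · exact hnot0 a h
        · exact ih c hc h
      · have h' := hKW b h
        rcases lt_trichotomy a b with hab | hab | hab
        · apply (hs b).2.2.1
          have := add_mem (hxW a b hab) h'
          rwa [← add_assoc, h2, zero_add] at this
        · subst hab
          exact (hs a).2.2.2 h'
        · apply (hs a).2.1
          have := add_mem (hWmono b a hab.le h') (hyW b a hab)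
          rwa [add_assoc, h2, add_zero] at this
  refine ⟨K univ, fun x hx => AddSubgroup.subset_closure (Or.inl hx), fun i => ?_⟩
  obtain ⟨a, rfl⟩ := hσ i
  refine ⟨(s a).1, (s a).2, (hs a).1, ?_, AddSubgroup.subset_closure (Or.inr ⟨a, mem_univ _, rfl⟩)⟩
  intro h
  rcases hlim _ _ h with h | ⟨c, -, h⟩
  · exact hnot0 a h
  · exact hnot a c h

/-- the Boolean group of binary sequences -/
abbrev BG : Type := ℕ → ZMod 2

theorem BG_add_self (x : BG) : x + x = 0 := by
  funext i
  exact CharTwo.add_self_eq_zero (x i)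

theorem mk_BG : #BG = 𝔠 := by
  simp [BG]

theorem exists_good_subgroup :
    ∃ H : AddSubgroup BG, (∀ n : ℕ, Pi.single n 1 ∈ H) ∧ H ≠ ⊤ ∧
      ∀ (f : BG → BG) (J : Set BG), J.Countable → (∀ x, x ∉ J → ContinuousAt f x) →
        (∀ y, (f ⁻¹' {y}).Countable) → 𝔠 ≤ #(range (fun x => f x + x)) →
        ∃ x, x ∉ J ∧ x ∉ H ∧ f x ∈ H := by
  classical
  obtain ⟨d, hd⟩ := TopologicalSpace.exists_dense_seq BG
  let κ : Type := (ℕ → BG) × (ℕ → BG) × (ℕ → BG)
  have hκ : #κ ≤ 𝔠 := by
    simp [κ]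
  let Good : κ → (BG → BG) → Prop := fun k f =>
    (∀ x, x ∉ range k.1 → ContinuousAt f x) ∧ (∀ n, f (k.1 n) = k.2.1 n) ∧
      (∀ n, f (d n) = k.2.2 n) ∧ (∀ y, (f ⁻¹' {y}).Countable) ∧ 𝔠 ≤ #(range (fun x => f x + x))
  have huniq : ∀ k f f', Good k f → Good k f' → f = f' := by
    intro k f f' hf hf'
    funext x
    by_cases hx : x ∈ range k.1
    · obtain ⟨n, rfl⟩ := hx
      rw [hf.2.1, hf'.2.1]
    · refine tendsto_nhds_unique_of_frequently_eq (hf.1 x hx).tendsto (hf'.1 x hx).tendsto ?_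
      have := mem_closure_iff_frequently.1 (hd x)
      refine this.mono ?_
      rintro _ ⟨n, rfl⟩
      rw [hf.2.2.1, hf'.2.2.1]
  have hE : #(range (fun n : ℕ => (Pi.single n 1 : BG))) < 𝔠 :=
    lt_of_le_of_lt mk_range_le (by simp [aleph0_lt_continuum])
  have hout : ∀ W : Set BG, #W < 𝔠 → ∃ x, x ∉ W := by
    intro W hW
    by_contra hcon
    push Not at hcon
    have : W = Set.univ := eq_univ_of_forall hcon
    rw [this, mk_univ, mk_BG] at hW
    exact lt_irrefl _ hW
  obtain ⟨H, hEH, hH⟩ := exists_killing_subgroup BG_add_self κ hκ _ hE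
    (fun k x y => ∀ f, Good k f → x ∉ range k.1 ∧ y = f x) (by
      intro k W hW
      by_cases hk : ∃ f, Good k f
      · obtain ⟨f, hf⟩ := hk
        have h1 : #(f ⁻¹' W) < 𝔠 := by
          have : f ⁻¹' W = ⋃ w : W, f ⁻¹' {w.1} := by
            ext x; simp
          rw [this]
          refine lt_of_le_of_lt (mk_iUnion_le _) ?_
          refine mul_lt_of_lt aleph0_le_continuum hW ?_
          refine lt_of_le_of_lt (ciSup_le' fun w => ?_) aleph0_lt_continuum
          exact le_aleph0_iff_set_countable.2 (hf.2.2.2.1 w.1)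
        have h2 : #(range k.1) < 𝔠 := lt_of_le_of_lt mk_range_le (by simp [aleph0_lt_continuum])
        have h3 : #((f ⁻¹' W ∪ (W ∪ range k.1) : Set BG)) < 𝔠 := by
          refine lt_of_le_of_lt (mk_union_le _ _) (add_lt_of_lt aleph0_le_continuum h1 ?_)
          exact lt_of_le_of_lt (mk_union_le _ _) (add_lt_of_lt aleph0_le_continuum hW h2)
        have h4 : #(((fun x => f x + x) '' (f ⁻¹' W ∪ (W ∪ range k.1)) ∪ W : Set BG)) < 𝔠 :=
          lt_of_le_of_lt (mk_union_le _ _) (add_lt_of_lt aleph0_le_continuum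
            (lt_of_le_of_lt mk_image_le h3) hW)
        have h5 : ¬ (range (fun x => f x + x) ⊆
            ((fun x => f x + x) '' (f ⁻¹' W ∪ (W ∪ range k.1)) ∪ W : Set BG)) := fun h =>
          absurd (lt_of_le_of_lt (hf.2.2.2.2.trans (mk_le_mk_of_subset h)) h4) (lt_irrefl _)
        obtain ⟨_, ⟨x, rfl⟩, hx⟩ := not_subset.1 h5
        have hx1 : x ∉ (f ⁻¹' W ∪ (W ∪ range k.1) : Set BG) := fun h => hx (Or.inl ⟨x, h, rfl⟩)
        refine ⟨x, f x, ?_, fun h => hx1 (Or.inr (Or.inl h)), fun h => hx1 (Or.inl h), ?_⟩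
        · intro f' hf'
          exact ⟨fun h => hx1 (Or.inr (Or.inr h)), by rw [huniq k f f' hf hf']⟩
        · rw [add_comm]
          exact fun h => hx (Or.inr h)
      · obtain ⟨x, hx⟩ := hout W hW
        obtain ⟨y, hy⟩ := hout (W ∪ (fun w => x + w) '' W)
          (lt_of_le_of_lt (mk_union_le _ _) (add_lt_of_lt aleph0_le_continuum hW
            (lt_of_le_of_lt mk_image_le hW)))
        refine ⟨x, y, fun f hf => absurd ⟨f, hf⟩ hk, hx, fun h => hy (Or.inl h), fun h => hy
          (Or.inr ⟨x + y, h, ?_⟩)⟩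
        simp only
        rw [← add_assoc, BG_add_self, zero_add])
  refine ⟨H, fun n => hEH ⟨n, rfl⟩, ?_, ?_⟩
  · rintro rfl
    obtain ⟨x, -, -, hx, -⟩ := hH (0, 0, 0)
    exact hx (AddSubgroup.mem_top x)
  · intro f J hJ hcont hfib hcard
    obtain ⟨j, hj⟩ := (hJ.insert 0).exists_eq_range (insert_nonempty _ _)
    have hgood : Good (j, f ∘ j, f ∘ d) f := by
      refine ⟨fun x hx => hcont x fun h => hx ?_, fun _ => rfl, fun _ => rfl, hfib, hcard⟩
      change x ∈ range j
      rw [← hj]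
      exact Or.inr h
    obtain ⟨x, y, hxy, hx, hy⟩ := hH (j, f ∘ j, f ∘ d)
    obtain ⟨h1, rfl⟩ := hxy f hgood
    refine ⟨x, fun h => h1 ?_, hx, hy⟩
    change x ∈ range j
    rw [← hj]
    exact Or.inr h

end Pool.Agent.MP_a8721e_gt
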