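import Mathlib

set_option autoImplicit false

open Set Filter Topology Function

namespace Pool.Agent.MP_a8721e_gt

/-- local data: two open sets with mutually inverse continuous maps -/
structure LocEquiv {X : Type} [TopologicalSpace X] (p q : X) where
  A : Set X
  B : Set X
  f : X → X
  g : X → X
  openA : IsOpen A
  openB : IsOpen B
  contf : ContinuousOn f A
  contg : ContinuousOn g B
  mapsf : MapsTo f A B
  mapsg : MapsTo g B A
  left : ∀ x ∈ A, g (f x) = x
  right : ∀ y ∈ B, f (g y) = y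
  memA : p ∈ A
  apply_eq : f p = q

theorem swap_lemma {X : Type} [TopologicalSpace X] [T2Space X] [CompactSpace X]
    (hb : TopologicalSpace.IsTopologicalBasis {s : Set X | IsClopen s})
    {p q : X} (e : LocEquiv p q) (hne : p ≠ q) {O : Set X} (hO : IsOpen O)
    (hpO : p ∈ O) (hqO : q ∈ O) :
    ∃ h : X ≃ₜ X, h p = q ∧ ∀ x, x ∉ O → h x = x := by
  classical
  obtain ⟨U, W, hU, hW, hpU, hqW, hUW⟩ := t2_separation hne
  have hopen : IsOpen (e.A ∩ e.f ⁻¹' (W ∩ O)) :=
    e.contf.isOpen_inter_preimage e.openA (hW.inter hO)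
  have hp' : p ∈ (e.A ∩ e.f ⁻¹' (W ∩ O)) ∩ (U ∩ O) := by
    refine ⟨⟨e.memA, ?_⟩, hpU, hpO⟩
    simp only [mem_preimage, e.apply_eq]
    exact ⟨hqW, hqO⟩
  obtain ⟨C, hC, hpC, hCsub⟩ := hb.exists_subset_of_mem_open hp' (hopen.inter (hU.inter hO))
  have hC : IsClopen C := hC
  have hCA : C ⊆ e.A := fun x hx => (hCsub hx).1.1
  set D : Set X := e.f '' C with hD
  have hDB : D ⊆ e.B := by
    rintro _ ⟨x, hx, rfl⟩
    exact e.mapsf (hCA hx)
  have hDeq : D = e.B ∩ e.g ⁻¹' C := by
    ext y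
    constructor
    · rintro ⟨x, hx, rfl⟩
      refine ⟨e.mapsf (hCA hx), ?_⟩
      simp only [mem_preimage, e.left x (hCA hx)]
      exact hx
    · rintro ⟨hy, hy'⟩
      exact ⟨e.g y, hy', e.right y hy⟩
  have hDopen : IsOpen D := by
    rw [hDeq]
    exact e.contg.isOpen_inter_preimage e.openB hC.isOpen
  have hDclosed : IsClosed D :=
    ((hC.isClosed.isCompact).image_of_continuousOn (e.contf.mono hCA)).isClosed
  have hdisj : ∀ x, x ∈ C → x ∉ D := by
    rintro x hx ⟨y, hy, rfl⟩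
    exact Set.disjoint_left.1 hUW (hCsub hx).2.1 (hCsub hy).1.2.1
  let s : X → X := fun x => if x ∈ C then e.f x else if x ∈ D then e.g x else x
  have hsC : ∀ x ∈ C, s x = e.f x := fun x hx => by simp only [s, if_pos hx]
  have hsD : ∀ x ∈ D, s x = e.g x := fun x hx => by
    have : x ∉ C := fun h => hdisj x h hx
    simp only [s, if_neg this, if_pos hx]
  have hsN : ∀ x, x ∉ C → x ∉ D → s x = x := fun x h1 h2 => by
    simp only [s, if_neg h1, if_neg h2]
  have hinv : Involutive s := by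
    intro x
    by_cases h1 : x ∈ C
    · rw [hsC x h1, hsD _ ⟨x, h1, rfl⟩, e.left x (hCA h1)]
    · by_cases h2 : x ∈ D
      · have h3 : e.g x ∈ C := (hDeq ▸ h2).2
        rw [hsD x h2, hsC _ h3, e.right x (hDB h2)]
      · rw [hsN x h1 h2, hsN x h1 h2]
  have hcont : Continuous s := by
    rw [continuous_iff_continuousAt]
    intro x
    by_cases h1 : x ∈ C
    · have h3 : ContinuousAt e.f x := e.contf.continuousAt (e.openA.mem_nhds (hCA h1))
      refine h3.congr ?_
      filter_upwards [hC.isOpen.mem_nhds h1] with y hy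
      exact (hsC y hy).symm
    · by_cases h2 : x ∈ D
      · have h3 : ContinuousAt e.g x := e.contg.continuousAt (e.openB.mem_nhds (hDB h2))
        refine h3.congr ?_
        filter_upwards [hDopen.mem_nhds h2] with y hy
        exact (hsD y hy).symm
      · refine (continuousAt_id).congr ?_
        filter_upwards [hC.isClosed.isOpen_compl.mem_nhds h1,
          hDclosed.isOpen_compl.mem_nhds h2] with y hy1 hy2
        exact (hsN y hy1 hy2).symm
  refine ⟨⟨hinv.toPerm s, hcont, hcont⟩, ?_, ?_⟩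
  · change s p = q
    rw [hsC p hpC, e.apply_eq]
  · intro x hx
    change s x = x
    refine hsN x (fun h => hx (hCsub h).2.2) ?_
    rintro ⟨y, hy, rfl⟩
    exact hx (hCsub hy).1.2.2

/-- a homeomorphism gives local data -/
def LocEquiv.ofHomeo {X : Type} [TopologicalSpace X] (h : X ≃ₜ X) (p : X) : LocEquiv p (h p) where
  A := univ
  B := univ
  f := h
  g := h.symm
  openA := isOpen_univ
  openB := isOpen_univ
  contf := h.continuous.continuousOn
  contg := h.symm.continuous.continuousOn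
  mapsf := mapsTo_univ _ _
  mapsg := mapsTo_univ _ _
  left := fun x _ => h.symm_apply_apply x
  right := fun x _ => h.apply_symm_apply x
  memA := mem_univ _
  apply_eq := rfl

theorem homeo_of_locEquiv {X : Type} [TopologicalSpace X] [T2Space X] [CompactSpace X]
    (hb : TopologicalSpace.IsTopologicalBasis {s : Set X | IsClopen s})
    {p q : X} (e : LocEquiv p q) : ∃ h : X ≃ₜ X, h p = q := by
  by_cases hne : p = q
  · exact ⟨Homeomorph.refl X, hne⟩
  · obtain ⟨h, h1, -⟩ := swap_lemma hb e hne isOpen_univ (mem_univ _) (mem_univ _)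
    exact ⟨h, h1⟩

theorem two_transitive {X : Type} [TopologicalSpace X] [T2Space X] [CompactSpace X]
    (hb : TopologicalSpace.IsTopologicalBasis {s : Set X | IsClopen s})
    (hom : ∀ x y : X, ∃ h : X ≃ₜ X, h x = y) {x₁ x₂ y₁ y₂ : X} (hx : x₁ ≠ x₂) (hy : y₁ ≠ y₂) :
    ∃ h : X ≃ₜ X, h x₁ = y₁ ∧ h x₂ = y₂ := by
  obtain ⟨k, hk⟩ := hom x₁ y₁
  by_cases hz : k x₂ = y₂
  · exact ⟨k, hk, hz⟩
  · obtain ⟨m, hm⟩ := hom (k x₂) y₂
    have hz1 : k x₂ ≠ y₁ := fun h => hx (k.injective (hk.trans h.symm))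
    obtain ⟨s, hs1, hs2⟩ := swap_lemma hb (hm ▸ LocEquiv.ofHomeo m (k x₂) : LocEquiv (k x₂) y₂) hz
      (O := {y₁}ᶜ) isOpen_compl_singleton hz1 hy.symm
    refine ⟨k.trans s, ?_, ?_⟩
    · change s (k x₁) = y₁
      rw [hk]
      exact hs2 y₁ (by simp)
    · exact hs1

theorem not_left_bounded {X : Type} [TopologicalSpace X] [T2Space X] [CompactSpace X] [Infinite X]
    (hb : TopologicalSpace.IsTopologicalBasis {s : Set X | IsClopen s})
    (hom : ∀ x y : X, ∃ h : X ≃ₜ X, h x = y)
    (coh : ∀ u : X → X, Continuous u → Injective u → Surjective u) :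
    ∃ U : Set (X → X), U ∈ nhds (id : X → X) ∧
      ¬ ∃ F : Set (X → X), F.Finite ∧ (∀ g ∈ F, Continuous g) ∧
          ∀ f : X → X, Continuous f →
            ∃ g ∈ F, ∃ u ∈ U, Continuous u ∧ f = g ∘ u := by
  classical
  obtain ⟨x₁, x₂, hx⟩ := exists_pair_ne X
  obtain ⟨V, hV, hx₁V, hVsub⟩ := hb.exists_subset_of_mem_open (a := x₁) (u := {x₂}ᶜ) hx
    isOpen_compl_singleton
  have hV : IsClopen V := hV
  have hx₂V : x₂ ∉ V := fun h => hVsub h rfl
  refine ⟨{u | u x₁ ∈ V ∧ u x₂ ∉ V}, ?_, ?_⟩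
  · have h1 : {u : X → X | u x₁ ∈ V} ∈ nhds (id : X → X) :=
      (continuous_apply x₁).continuousAt.preimage_mem_nhds (hV.isOpen.mem_nhds hx₁V)
    have h2 : {u : X → X | u x₂ ∈ Vᶜ} ∈ nhds (id : X → X) :=
      (continuous_apply x₂).continuousAt.preimage_mem_nhds (hV.compl.isOpen.mem_nhds hx₂V)
    filter_upwards [h1, h2] with u hu1 hu2
    exact ⟨hu1, hu2⟩
  · rintro ⟨F, hF, -, hall⟩
    have : Finite F := hF.to_subtype
    obtain ⟨y₁, y₂, hy, hyy⟩ := Finite.exists_ne_map_eq_of_infinite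
      (fun y : X => fun g : F => y ∈ g.1 '' V)
    obtain ⟨h, h1, h2⟩ := two_transitive hb hom hx hy
    obtain ⟨g, hg, u, hu, hucont, hfu⟩ := hall h h.continuous
    have huinj : Injective u := by
      apply Injective.of_comp (f := g)
      rw [← hfu]
      exact h.injective
    have husurj := coh u hucont huinj
    have hginj : Injective g := by
      apply Injective.of_comp_right (g := u) _ husurj
      rw [← hfu]
      exact h.injective
    have e1 : y₁ ∈ g '' V := ⟨u x₁, hu.1, by rw [← h1, hfu]; rfl⟩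
    have e2 : y₂ ∈ g '' V := by
      have := congrFun hyy ⟨g, hg⟩
      simp only at this
      exact this ▸ e1
    obtain ⟨v, hv, hgv⟩ := e2
    have : v = u x₂ := hginj (by rw [hgv, ← h2, hfu]; rfl)
    exact hu.2 (this ▸ hv)

end Pool.Agent.MP_a8721e_gt
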