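import Mathlib
import Pool.Agent.MP_a8721e_gt.Subgroup
import Pool.Agent.MP_a8721e_gt.Swap

set_option autoImplicit false

open Set Filter Topology Function

namespace Pool.Agent.MP_a8721e_gt

theorem z2_cases (a : ZMod 2) : a = 0 ∨ a = 1 := by
  revert a; decide

theorem z2_add_self (a : ZMod 2) : a + a = 0 := CharTwo.add_self_eq_zero a

theorem BG_add_eq_zero {x y : BG} : x + y = 0 ↔ x = y := by
  constructor
  · intro h
    have : x + y + y = y := by rw [h, zero_add]
    rwa [add_assoc, BG_add_self, add_zero] at this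
  · rintro rfl
    exact BG_add_self x

/-- index of the first nonzero coordinate -/
noncomputable def lead (z : BG) : ℕ := sInf {n | z n ≠ 0}

/-- the coordinate following the first nonzero one -/
noncomputable def col (z : BG) : ZMod 2 := z (lead z + 1)

theorem lead_eq {z : BG} {n : ℕ} (h1 : z n = 1) (h0 : ∀ i, i < n → z i = 0) : lead z = n := by
  have hn : n ∈ {n | z n ≠ 0} := by
    change z n ≠ 0; rw [h1]; exact one_ne_zero
  apply le_antisymm (Nat.sInf_le hn)
  by_contra hlt
  push Not at hlt
  exact Nat.sInf_mem (⟨n, hn⟩ : {n | z n ≠ 0}.Nonempty) (h0 _ hlt)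

theorem apply_lead {z : BG} (hz : z ≠ 0) : z (lead z) = 1 := by
  have hne : {n | z n ≠ 0}.Nonempty := by
    by_contra h
    apply hz
    funext i
    by_contra hi
    exact h ⟨i, hi⟩
  rcases z2_cases (z (lead z)) with h | h
  · exact absurd h (Nat.sInf_mem hne)
  · exact h

theorem apply_lt_lead {z : BG} {i : ℕ} (hi : i < lead z) : z i = 0 := by
  by_contra h
  exact absurd (Nat.sInf_le (show i ∈ {n | z n ≠ 0} from h)) (not_le.2 hi)

theorem eventually_agree {α : Type*} {l : Filter α} {w : α → BG} {z : BG}
    (h : Tendsto w l (𝓝 z)) (m : ℕ) : ∀ᶠ a in l, ∀ i, i < m → w a i = z i := by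
  have : ∀ i : ℕ, ∀ᶠ a in l, w a i = z i := fun i => by
    have := tendsto_pi_nhds.1 h i
    rwa [nhds_discrete, tendsto_pure] at this
  have h2 := (eventually_all_finite (finite_lt_nat m)).2 (fun i _ => this i)
  exact h2.mono fun a ha i hi => ha i hi

theorem eventually_lead {α : Type*} {l : Filter α} {w : α → BG} {z : BG} (hz : z ≠ 0)
    (h : Tendsto w l (𝓝 z)) : ∀ᶠ a in l, w a ≠ 0 ∧ lead (w a) = lead z ∧ col (w a) = col z := by
  filter_upwards [eventually_agree h (lead z + 2)] with a ha
  have h1 : w a (lead z) = 1 := by rw [ha _ (by omega), apply_lead hz]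
  have h2 : lead (w a) = lead z :=
    lead_eq h1 fun i hi => by rw [ha _ (by omega), apply_lt_lead hi]
  refine ⟨fun h0 => ?_, h2, ?_⟩
  · rw [h0] at h1
    exact zero_ne_one h1
  · unfold col
    rw [h2, ha _ (by omega)]

/-- the carrier of the split space -/
def carrier (H : AddSubgroup BG) : Set (BG × (BG → ZMod 2)) :=
  {p | ∀ x, (x ∈ H → p.2 x = 0) ∧ (x ∉ H → x ≠ p.1 → p.2 x = col (x + p.1))}

theorem isClosed_carrier (H : AddSubgroup BG) : IsClosed (carrier H) := by
  rw [isClosed_iff_ultrafilter]
  intro p u hu hp x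
  have hu1 : Tendsto (fun q : BG × (BG → ZMod 2) => q.1) u (𝓝 p.1) :=
    (continuous_fst.tendsto p).mono_left hu
  have hu2 : ∀ᶠ q : BG × (BG → ZMod 2) in u, q.2 x = p.2 x := by
    have : Tendsto (fun q : BG × (BG → ZMod 2) => q.2 x) u (𝓝 (p.2 x)) :=
      (((continuous_apply x).comp continuous_snd).tendsto p).mono_left hu
    rwa [nhds_discrete, tendsto_pure] at this
  have hp' : ∀ᶠ q in (u : Filter _), q ∈ carrier H := hp
  constructor
  · intro hx
    obtain ⟨q, hq1, hq2⟩ := (hu2.and hp').exists
    rw [← hq1]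
    exact (hq2 x).1 hx
  · intro hx hne
    have h3 := eventually_lead (z := x + p.1) (fun h => hne (BG_add_eq_zero.1 h))
      (tendsto_const_nhds.add hu1)
    obtain ⟨q, ⟨hq1, hq2⟩, hq3⟩ := ((hu2.and hp').and h3).exists
    rw [← hq1, ← hq3.2.2]
    exact (hq2 x).2 hx fun h => hq3.1 (BG_add_eq_zero.2 h)

/-- the split space -/
abbrev Sp (H : AddSubgroup BG) : Type := carrier H

instance compactSp (H : AddSubgroup BG) : CompactSpace (Sp H) :=
  isCompact_iff_compactSpace.1 (isClosed_carrier H).isCompact

/-- the projection -/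
def pr {H : AddSubgroup BG} (p : Sp H) : BG := p.1.1

theorem continuous_pr {H : AddSubgroup BG} : Continuous (pr : Sp H → BG) :=
  continuous_fst.comp continuous_subtype_val

theorem continuous_coord {H : AddSubgroup BG} (x : BG) : Continuous (fun p : Sp H => p.1.2 x) :=
  (continuous_apply x).comp (continuous_snd.comp continuous_subtype_val)

theorem coord_of_mem {H : AddSubgroup BG} (p : Sp H) {x : BG} (hx : x ∈ H) : p.1.2 x = 0 :=
  (p.2 x).1 hx

theorem coord_of_ne {H : AddSubgroup BG} (p : Sp H) {x : BG} (hx : x ∉ H) (hne : x ≠ pr p) :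
    p.1.2 x = col (x + pr p) :=
  (p.2 x).2 hx hne

theorem Sp_ext {H : AddSubgroup BG} {p q : Sp H} (h1 : pr p = pr q)
    (h2 : pr p ∉ H → p.1.2 (pr p) = q.1.2 (pr p)) : p = q := by
  apply Subtype.ext
  refine Prod.ext h1 (funext fun x => ?_)
  by_cases hx : x ∈ H
  · rw [coord_of_mem p hx, coord_of_mem q hx]
  · by_cases hne : x = pr p
    · subst hne
      exact h2 hx
    · rw [coord_of_ne p hx hne, coord_of_ne q hx (h1 ▸ hne), h1]

open Classical in
/-- the point over `y` with colour `b` -/
noncomputable def lft (H : AddSubgroup BG) (y : BG) (b : ZMod 2) : Sp H :=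
  ⟨(y, fun x => if x ∈ H then 0 else if x = y then b else col (x + y)), fun x =>
    ⟨fun hx => by simp only [if_pos hx], fun hx hne => by simp only [if_neg hx, if_neg hne]⟩⟩

@[simp] theorem pr_lft (H : AddSubgroup BG) (y : BG) (b : ZMod 2) : pr (lft H y b) = y := rfl

theorem lft_coord {H : AddSubgroup BG} {y : BG} (hy : y ∉ H) (b : ZMod 2) :
    (lft H y b).1.2 y = b := by
  simp [lft, hy]

theorem eq_lft {H : AddSubgroup BG} (p : Sp H) : p = lft H (pr p) (p.1.2 (pr p)) :=
  Sp_ext rfl fun h => (lft_coord h _).symm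

theorem eq_lft_cases {H : AddSubgroup BG} (p : Sp H) :
    p = lft H (pr p) 0 ∨ p = lft H (pr p) 1 := by
  rcases z2_cases (p.1.2 (pr p)) with h | h
  · left; rw [← h]; exact eq_lft p
  · right; rw [← h]; exact eq_lft p

theorem tendsto_Sp {H : AddSubgroup BG} {α : Type*} {l : Filter α} {q : α → Sp H} {p : Sp H}
    (h1 : Tendsto (fun a => pr (q a)) l (𝓝 (pr p)))
    (h2 : pr p ∉ H → ∀ᶠ a in l, (q a).1.2 (pr p) = p.1.2 (pr p)) : Tendsto q l (𝓝 p) := by
  rw [tendsto_subtype_rng, Prod.tendsto_iff]
  refine ⟨h1, tendsto_pi_nhds.2 fun x => ?_⟩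
  rw [nhds_discrete, tendsto_pure]
  by_cases hx : x ∈ H
  · exact Eventually.of_forall fun a => by rw [coord_of_mem _ hx, coord_of_mem _ hx]
  · by_cases hne : x = pr p
    · subst hne
      exact h2 hx
    · have h3 := eventually_lead (z := x + pr p) (fun h => hne (BG_add_eq_zero.1 h))
        (tendsto_const_nhds.add h1)
      filter_upwards [h3] with a ha
      rw [coord_of_ne p hx hne, ← ha.2.2]
      exact coord_of_ne (q a) hx fun h => ha.1 (BG_add_eq_zero.2 h)

/-- translation by an element of the subgroup -/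
def tr {H : AddSubgroup BG} (h : H) (p : Sp H) : Sp H :=
  ⟨(pr p + h, fun x => p.1.2 (x + h)), fun x =>
    ⟨fun hx => coord_of_mem p (add_mem hx h.2), fun hx hne => by
      have h1 : x + h ∉ H := fun h' => hx (by
        have := add_mem h' h.2
        rwa [add_assoc, BG_add_self, add_zero] at this)
      have h2 : x + h ≠ pr p := fun h' => hne (by
        simp only
        rw [← h', add_assoc, BG_add_self, add_zero])
      simp only
      rw [coord_of_ne p h1 h2]
      congr 1
      abel⟩⟩

@[simp] theorem pr_tr {H : AddSubgroup BG} (h : H) (p : Sp H) : pr (tr h p) = pr p + h := rfl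

theorem tr_tr {H : AddSubgroup BG} (h : H) (p : Sp H) : tr h (tr h p) = p := by
  apply Subtype.ext
  refine Prod.ext ?_ (funext fun x => ?_)
  · change pr p + h + h = pr p
    rw [add_assoc, BG_add_self, add_zero]
  · change p.1.2 (x + h + h) = p.1.2 x
    rw [add_assoc, BG_add_self, add_zero]

theorem continuous_tr {H : AddSubgroup BG} (h : H) : Continuous (tr h : Sp H → Sp H) := by
  refine Continuous.subtype_mk ?_ _
  refine Continuous.prodMk (continuous_pr.add continuous_const) ?_
  exact continuous_pi fun x => continuous_coord _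

/-- truncation -/
def trunc (m : ℕ) (y : BG) : BG := fun i => if i < m then y i else 0

theorem trunc_mem {H : AddSubgroup BG} (hE : ∀ n : ℕ, Pi.single n 1 ∈ H) (m : ℕ) (y : BG) :
    trunc m y ∈ H := by
  induction m with
  | zero =>
    have : trunc 0 y = 0 := by funext i; simp [trunc]
    rw [this]; exact zero_mem _
  | succ m ih =>
    rcases z2_cases (y m) with h | h
    · have : trunc (m + 1) y = trunc m y := by
        funext i
        simp only [trunc]
        rcases lt_trichotomy i m with hi | hi | hi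
        · rw [if_pos hi, if_pos (by omega)]
        · subst hi; simp [h]
        · rw [if_neg (by omega), if_neg (by omega)]
      rw [this]; exact ih
    · have : trunc (m + 1) y = trunc m y + Pi.single m 1 := by
        funext i
        simp only [trunc, Pi.add_apply]
        rcases lt_trichotomy i m with hi | hi | hi
        · rw [if_pos hi, if_pos (by omega), Pi.single_eq_of_ne (by omega), add_zero]
        · subst hi; simp [h]
        · rw [if_neg (by omega), if_neg (by omega), Pi.single_eq_of_ne (by omega), add_zero]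
      rw [this]; exact add_mem ih (hE m)

/-- correction pattern -/
def pat (n : ℕ) (b : ZMod 2) : BG := fun i => if i = n then 1 else if i = n + 1 then b + 1 else 0

/-- the finitely supported shift used on the n-th piece -/
def shiftv (y : BG) (b : ZMod 2) (n : ℕ) : BG := trunc (n + 2) (y + pat n b)

theorem shiftv_lt {y : BG} {b : ZMod 2} {n i : ℕ} (hi : i < n) : shiftv y b n i = y i := by
  simp only [shiftv, trunc, pat, Pi.add_apply]
  rw [if_pos (by omega), if_neg (by omega), if_neg (by omega), add_zero]

theorem shiftv_self {y : BG} {b : ZMod 2} {n : ℕ} : shiftv y b n n = y n + 1 := by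
  simp [shiftv, trunc, pat]

theorem shiftv_succ {y : BG} {b : ZMod 2} {n : ℕ} : shiftv y b n (n + 1) = y (n + 1) + (b + 1) := by
  simp [shiftv, trunc, pat]

theorem fact_one {y z : BG} {b : ZMod 2} (hz : z ≠ y) (hc : col (y + z) = b) :
    (z + shiftv y b (lead (y + z))) (lead (y + z) + 1) = 1 ∧
      ∀ i, i < lead (y + z) + 1 → (z + shiftv y b (lead (y + z))) i = 0 := by
  have hne : y + z ≠ 0 := fun h => hz (BG_add_eq_zero.1 h).symm
  set n := lead (y + z) with hn
  have h1 : y n + z n = 1 := apply_lead hne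
  have h2 : y (n + 1) + z (n + 1) = b := hc
  constructor
  · rw [Pi.add_apply, shiftv_succ, ← h2]
    have := z2_add_self (y (n + 1))
    have := z2_add_self (z (n + 1))
    linear_combination (z2_add_self (y (n + 1))) + (z2_add_self (z (n + 1)))
  · intro i hi
    rcases Nat.lt_succ_iff_lt_or_eq.1 hi with h | h
    · rw [Pi.add_apply, shiftv_lt h, add_comm]
      exact apply_lt_lead (z := y + z) h
    · rw [h, Pi.add_apply, shiftv_self]
      linear_combination h1 + (z2_add_self 1)

theorem fact_two {y w : BG} {b : ZMod 2} {n : ℕ} (h1 : w (n + 1) = 1)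
    (h0 : ∀ i, i < n + 1 → w i = 0) :
    (y + (w + shiftv y b n)) n = 1 ∧ (∀ i, i < n → (y + (w + shiftv y b n)) i = 0) ∧
      (y + (w + shiftv y b n)) (n + 1) = b := by
  refine ⟨?_, fun i hi => ?_, ?_⟩
  · simp only [Pi.add_apply, shiftv_self, h0 n (by omega)]
    linear_combination (z2_add_self (y n))
  · simp only [Pi.add_apply, shiftv_lt hi, h0 i (by omega)]
    linear_combination (z2_add_self (y i))
  · simp only [Pi.add_apply, shiftv_succ, h1]
    linear_combination (z2_add_self (y (n + 1))) + (z2_add_self 1)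

end Pool.Agent.MP_a8721e_gt
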