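import Mathlib
import Pool.Agent.MP_a8721e_gt.Space

set_option autoImplicit false

open Set Filter Topology Function

namespace Pool.Agent.MP_a8721e_gt

theorem clopen_basis (H : AddSubgroup BG) :
    TopologicalSpace.IsTopologicalBasis {s : Set (Sp H) | IsClopen s} :=
  isTopologicalBasis_isClopen

theorem shiftv_mem {H : AddSubgroup BG} (hE : ∀ n : ℕ, Pi.single n 1 ∈ H) (y : BG) (b : ZMod 2)
    (n : ℕ) : shiftv y b n ∈ H := trunc_mem hE _ _

theorem nonempty_locEquiv {H : AddSubgroup BG} (hE : ∀ n : ℕ, Pi.single n 1 ∈ H) {y : BG}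
    (hy : y ∉ H) (b : ZMod 2) : Nonempty (LocEquiv (lft H y b) (lft H 0 0)) := by
  classical
  let sh : ℕ → H := fun n => ⟨shiftv y b n, shiftv_mem hE y b n⟩
  let f : Sp H → Sp H := fun q => if pr q = y then lft H 0 0 else tr (sh (lead (y + pr q))) q
  let g : Sp H → Sp H := fun q => if pr q = 0 then lft H y b else tr (sh (lead (pr q) - 1)) q
  let A : Set (Sp H) := {q | q.1.2 y = b}
  let B : Set (Sp H) := {q | pr q 0 = 0}
  have hA : IsOpen A := (isOpen_discrete {b}).preimage (continuous_coord y)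
  have hB : IsOpen B := (isOpen_discrete {(0 : ZMod 2)}).preimage
    ((continuous_apply 0).comp continuous_pr)
  have hf1 : ∀ q, pr q = y → f q = lft H 0 0 := fun q hq => by simp only [f, if_pos hq]
  have hf2 : ∀ q, pr q ≠ y → f q = tr (sh (lead (y + pr q))) q := fun q hq => by
    simp only [f, if_neg hq]
  have hg1 : ∀ q, pr q = 0 → g q = lft H y b := fun q hq => by simp only [g, if_pos hq]
  have hg2 : ∀ q, pr q ≠ 0 → g q = tr (sh (lead (pr q) - 1)) q := fun q hq => by
    simp only [g, if_neg hq]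
  have hAp : ∀ q ∈ A, pr q = y → q = lft H y b := fun q hq h =>
    Sp_ext h fun _ => by rw [h, lft_coord hy]; exact hq
  have hBp : ∀ q : Sp H, pr q = 0 → q = lft H 0 0 := fun q h =>
    Sp_ext h fun h' => absurd (h ▸ zero_mem H) h'
  have hAcol : ∀ q ∈ A, pr q ≠ y → col (y + pr q) = b := fun q hq h => by
    rw [← coord_of_ne q hy h.symm]; exact hq
  have hF1 : ∀ q ∈ A, pr q ≠ y → pr (f q) (lead (y + pr q) + 1) = 1 ∧
      ∀ i, i < lead (y + pr q) + 1 → pr (f q) i = 0 := fun q hq h => by
    rw [hf2 q h, pr_tr]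
    exact fact_one h (hAcol q hq h)
  have hBlead : ∀ q ∈ B, pr q ≠ 0 → lead (pr q) - 1 + 1 = lead (pr q) := fun q hq h => by
    have : lead (pr q) ≠ 0 := fun h0 => by
      have h1 := apply_lead h
      rw [h0] at h1
      exact zero_ne_one ((show pr q 0 = 0 from hq).symm.trans h1)
    omega
  have hF2 : ∀ q ∈ B, pr q ≠ 0 → (y + pr (g q)) (lead (pr q) - 1) = 1 ∧
      (∀ i, i < lead (pr q) - 1 → (y + pr (g q)) i = 0) ∧
      (y + pr (g q)) (lead (pr q) - 1 + 1) = b := fun q hq h => by
    rw [hg2 q h, pr_tr]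
    refine fact_two ?_ fun i hi => ?_
    · rw [hBlead q hq h]; exact apply_lead h
    · rw [hBlead q hq h] at hi; exact apply_lt_lead hi
  have hF2' : ∀ q ∈ B, pr q ≠ 0 → pr (g q) ≠ y ∧ lead (y + pr (g q)) = lead (pr q) - 1 := by
    intro q hq h
    obtain ⟨h1, h2, -⟩ := hF2 q hq h
    refine ⟨fun h3 => ?_, lead_eq h1 h2⟩
    rw [h3, BG_add_self] at h1
    exact zero_ne_one h1
  have hmapsf : MapsTo f A B := by
    intro q hq
    by_cases h : pr q = y
    · rw [hf1 q h]; rfl
    · exact (hF1 q hq h).2 0 (by omega)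
  have hmapsg : MapsTo g B A := by
    intro q hq
    by_cases h : pr q = 0
    · rw [hg1 q h]; exact lft_coord hy b
    · obtain ⟨h1, h2⟩ := hF2' q hq h
      change (g q).1.2 y = b
      rw [coord_of_ne _ hy h1.symm, col, h2]
      exact (hF2 q hq h).2.2
  refine ⟨⟨A, B, f, g, hA, hB, ?_, ?_, hmapsf, hmapsg, ?_, ?_, lft_coord hy b, hf1 _ rfl⟩⟩
  · intro q hq
    by_cases h : pr q = y
    · rw [ContinuousWithinAt, hf1 q h]
      refine tendsto_Sp ?_ fun h' => absurd (zero_mem H) h'
      rw [pr_lft, tendsto_pi_nhds]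
      intro i
      rw [nhds_discrete, tendsto_pure]
      have h1 : Tendsto pr (𝓝[A] q) (𝓝 y) :=
        h ▸ (continuous_pr.tendsto q).mono_left nhdsWithin_le_nhds
      filter_upwards [eventually_agree h1 i, self_mem_nhdsWithin] with r hr hrA
      by_cases h2 : pr r = y
      · rw [hf1 r h2]; rfl
      · refine (hF1 r hrA h2).2 i ?_
        by_contra hcon
        have h3 : lead (y + pr r) < i := by omega
        have h4 := apply_lead (z := y + pr r) fun h5 => h2 (BG_add_eq_zero.1 h5).symm
        rw [Pi.add_apply, hr _ h3, z2_add_self] at h4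
        exact zero_ne_one h4
    · apply ContinuousAt.continuousWithinAt
      refine ((continuous_tr (sh (lead (y + pr q)))).continuousAt).congr ?_
      have h1 := eventually_lead (z := y + pr q) (fun h5 => h (BG_add_eq_zero.1 h5).symm)
        (tendsto_const_nhds.add (continuous_pr.tendsto q))
      filter_upwards [h1] with r hr
      rw [hf2 r fun h6 => hr.1 (BG_add_eq_zero.2 h6.symm), hr.2.1]
  · intro q hq
    by_cases h : pr q = 0
    · rw [ContinuousWithinAt, hg1 q h]
      refine tendsto_Sp ?_ fun _ => ?_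
      · rw [pr_lft, tendsto_pi_nhds]
        intro i
        rw [nhds_discrete, tendsto_pure]
        have h1 : Tendsto pr (𝓝[B] q) (𝓝 0) :=
          h ▸ (continuous_pr.tendsto q).mono_left nhdsWithin_le_nhds
        filter_upwards [eventually_agree h1 (i + 2), self_mem_nhdsWithin] with r hr hrB
        by_cases h2 : pr r = 0
        · rw [hg1 r h2]; rfl
        · have h3 : i < lead (pr r) - 1 := by
            by_contra hcon
            have h4 := apply_lead h2
            rw [hr _ (by omega)] at h4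
            exact zero_ne_one h4
          have h5 := (hF2 r hrB h2).2.1 i h3
          rw [Pi.add_apply] at h5
          linear_combination h5 - z2_add_self (y i)
      · filter_upwards [self_mem_nhdsWithin] with r hrB
        rw [pr_lft, lft_coord hy]
        exact hmapsg hrB
    · apply ContinuousAt.continuousWithinAt
      refine ((continuous_tr (sh (lead (pr q) - 1))).continuousAt).congr ?_
      have h1 := eventually_lead h (continuous_pr.tendsto q)
      filter_upwards [h1] with r hr
      rw [hg2 r hr.1, hr.2.1]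
  · intro q hq
    by_cases h : pr q = y
    · rw [hf1 q h, hg1 _ rfl]
      exact (hAp q hq h).symm
    · obtain ⟨h1, h2⟩ := hF1 q hq h
      have h3 : pr (f q) ≠ 0 := fun h4 => by
        rw [h4] at h1; exact zero_ne_one h1
      rw [hg2 _ h3, lead_eq h1 h2, Nat.add_sub_cancel, hf2 q h, tr_tr]
  · intro q hq
    by_cases h : pr q = 0
    · rw [hg1 q h, hf1 _ rfl]
      exact (hBp q h).symm
    · obtain ⟨h1, h2⟩ := hF2' q hq h
      rw [hf2 _ h1, h2, hg2 q h, tr_tr]

theorem to_base {H : AddSubgroup BG} (hE : ∀ n : ℕ, Pi.single n 1 ∈ H) (p : Sp H) :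
    ∃ h : Sp H ≃ₜ Sp H, h p = lft H 0 0 := by
  by_cases hp : pr p ∈ H
  · let t : H := ⟨pr p, hp⟩
    refine ⟨⟨(Involutive.toPerm (tr t) (tr_tr t)), continuous_tr t, continuous_tr t⟩, ?_⟩
    change tr t p = _
    refine Sp_ext (BG_add_self _) fun h => absurd ?_ h
    exact add_mem hp hp
  · obtain ⟨e⟩ := nonempty_locEquiv hE hp (p.1.2 (pr p))
    obtain ⟨h, hh⟩ := homeo_of_locEquiv (clopen_basis H) e
    exact ⟨h, by rw [eq_lft p]; exact hh⟩

theorem homogeneous_Sp {H : AddSubgroup BG} (hE : ∀ n : ℕ, Pi.single n 1 ∈ H) (p q : Sp H) :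
    ∃ h : Sp H ≃ₜ Sp H, h p = q := by
  obtain ⟨h1, hp⟩ := to_base hE p
  obtain ⟨h2, hq⟩ := to_base hE q
  refine ⟨h1.trans h2.symm, ?_⟩
  change h2.symm (h1 p) = q
  rw [hp, ← hq, Homeomorph.symm_apply_apply]

instance infiniteSp (H : AddSubgroup BG) : Infinite (Sp H) :=
  Infinite.of_injective (fun y => lft H y 0) fun _ _ h => congrArg pr h

theorem exists_lft_mem {H : AddSubgroup BG} (hE : ∀ n : ℕ, Pi.single n 1 ∈ H) {O : Set (Sp H)}
    (hO : IsOpen O) {p : Sp H} (hp : p ∈ O) : ∃ z ∈ H, lft H z 0 ∈ O := by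
  by_cases h : pr p ∈ H
  · refine ⟨pr p, h, ?_⟩
    have : lft H (pr p) 0 = p := Sp_ext rfl fun h' => absurd h h'
    rwa [this]
  · set y := pr p with hy
    set b := p.1.2 y with hb
    let z : ℕ → BG := fun n => Pi.single (n + 1) 1 + shiftv y b n
    have hz : ∀ n, (y + z n) n = 1 ∧ (∀ i, i < n → (y + z n) i = 0) ∧ (y + z n) (n + 1) = b :=
      fun n => fact_two (by simp) fun i hi => Pi.single_eq_of_ne (by omega) _
    have ht : Tendsto (fun n => lft H (z n) 0) atTop (𝓝 p) := by
      refine tendsto_Sp ?_ fun _ => Eventually.of_forall fun n => ?_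
      · rw [tendsto_pi_nhds]
        intro i
        rw [nhds_discrete, tendsto_pure]
        filter_upwards [eventually_gt_atTop i] with n hn
        have h5 := (hz n).2.1 i hn
        rw [Pi.add_apply] at h5
        rw [pr_lft, ← hy]
        linear_combination h5 - z2_add_self (y i)
      · have h1 : y ≠ z n := fun h2 => by
          have h3 := (hz n).1
          rw [← h2, BG_add_self] at h3
          exact zero_ne_one h3
        rw [← hy, coord_of_ne (lft H (z n) 0) h h1, pr_lft, col, lead_eq (hz n).1 (hz n).2.1]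
        exact (hz n).2.2
    obtain ⟨n, hn⟩ := (ht.eventually (hO.mem_nhds hp)).exists
    exact ⟨z n, add_mem (hE _) (shiftv_mem hE y b n), hn⟩

end Pool.Agent.MP_a8721e_gt
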