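import Mathlib
import Pool.Agent.MP_a8721e_gt.Homog

set_option autoImplicit false

open Set Filter Topology Function MeasureTheory Cardinal Pointwise

namespace Pool.Agent.MP_a8721e_gt

instance polishBG : PolishSpace BG := { }

theorem finite_jump {H : AddSubgroup BG} (φ : Sp H → ZMod 2) (hφ : Continuous φ) :
    {x : BG | φ (lft H x 0) ≠ φ (lft H x 1)}.Finite := by
  by_contra hinf
  have hS : {x : BG | φ (lft H x 0) ≠ φ (lft H x 1)}.Infinite := hinf
  have hne : (cofinite ⊓ 𝓟 {x : BG | φ (lft H x 0) ≠ φ (lft H x 1)}).NeBot :=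
    hS.cofinite_inf_principal_neBot
  let u : Ultrafilter BG := Ultrafilter.of (cofinite ⊓ 𝓟 {x : BG | φ (lft H x 0) ≠ φ (lft H x 1)})
  have hu : (u : Filter BG) ≤ _ := Ultrafilter.of_le _
  have hu1 : (u : Filter BG) ≤ cofinite := hu.trans inf_le_left
  have hu2 : ∀ᶠ x in (u : Filter BG), φ (lft H x 0) ≠ φ (lft H x 1) :=
    le_principal_iff.1 (hu.trans inf_le_right)
  obtain ⟨p, -, hp⟩ := isCompact_univ.ultrafilter_le_nhds (u.map fun x => lft H x 0) (by simp)
  have h0 : Tendsto (fun x => lft H x 0) u (𝓝 p) := hp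
  have h1 : Tendsto (fun x => lft H x 1) u (𝓝 p) := by
    have h6 : Tendsto (fun x : BG => x) u (𝓝 (pr p)) := (continuous_pr.tendsto p).comp h0
    refine tendsto_Sp h6 fun hH => ?_
    have h2 := ((continuous_coord (pr p)).tendsto p).comp h0
    rw [nhds_discrete, tendsto_pure] at h2
    have h3 : ∀ᶠ x in (u : Filter BG), x ≠ pr p := hu1 (eventually_cofinite_ne _)
    filter_upwards [h2, h3] with x hx hx'
    rw [← hx, coord_of_ne (lft H x 1) hH hx'.symm]
    exact (coord_of_ne (lft H x 0) hH hx'.symm).symm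
  have h4 := (hφ.tendsto p).comp h0
  have h5 := (hφ.tendsto p).comp h1
  rw [nhds_discrete, tendsto_pure] at h4 h5
  obtain ⟨x, ⟨hx1, hx2⟩, hx3⟩ := ((h4.and h5).and hu2).exists
  exact hx3 (hx1.trans hx2.symm)

theorem countable_jump {H : AddSubgroup BG} (φ : Sp H → BG) (hφ : Continuous φ) :
    {x : BG | φ (lft H x 0) ≠ φ (lft H x 1)}.Countable := by
  have : {x : BG | φ (lft H x 0) ≠ φ (lft H x 1)} ⊆
      ⋃ n : ℕ, {x : BG | φ (lft H x 0) n ≠ φ (lft H x 1) n} := by
    intro x hx
    obtain ⟨n, hn⟩ := Function.ne_iff.1 hx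
    exact mem_iUnion.2 ⟨n, hn⟩
  exact (countable_iUnion fun n =>
    (finite_jump (fun p => φ p n) ((continuous_apply n).comp hφ)).countable).mono this

theorem continuousAt_of_not_jump {H : AddSubgroup BG} (φ : Sp H → BG) (hφ : Continuous φ)
    {y : BG} (hy : φ (lft H y 0) = φ (lft H y 1)) :
    ContinuousAt (fun x => φ (lft H x 0)) y := by
  rw [ContinuousAt, tendsto_iff_ultrafilter]
  intro u hu
  obtain ⟨p, -, hp⟩ := isCompact_univ.ultrafilter_le_nhds (u.map fun x => lft H x 0) (by simp)
  have h0 : Tendsto (fun x => lft H x 0) u (𝓝 p) := hp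
  have h1 : Tendsto (fun x : BG => x) u (𝓝 (pr p)) := (continuous_pr.tendsto p).comp h0
  have h2 : pr p = y := tendsto_nhds_unique h1 hu
  have h3 : φ p = φ (lft H y 0) := by
    rcases eq_lft_cases p with h | h
    · rw [h, h2]
    · rw [h, h2, hy]
  rw [← h3]
  exact (hφ.tendsto p).comp h0

theorem eq_top_of_pos {H : AddSubgroup BG} (hE : ∀ n : ℕ, Pi.single n 1 ∈ H)
    (μ : Measure BG) [μ.IsAddHaarMeasure] {C : Set BG} (hC : MeasurableSet C) (hCH : C ⊆ H)
    (hpos : 0 < μ C) : H = ⊤ := by
  have h1 : C - C ∈ 𝓝 (0 : BG) :=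
    Measure.sub_mem_nhds_zero_of_addHaar_pos_ne_top μ C hC hpos (measure_ne_top _ _)
  have h2 : (H : Set BG) ∈ 𝓝 (0 : BG) := by
    refine mem_of_superset h1 ?_
    rintro _ ⟨a, ha, b, hb, rfl⟩
    exact sub_mem (hCH ha) (hCH hb)
  have h3 : IsClosed (H : Set BG) := H.isClosed_of_isOpen (H.isOpen_of_mem_nhds h2)
  rw [eq_top_iff]
  intro y _
  refine h3.mem_of_tendsto (f := fun m => trunc m y) (b := atTop) ?_
    (Eventually.of_forall fun m => trunc_mem hE m y)
  rw [tendsto_pi_nhds]
  intro i
  rw [nhds_discrete, tendsto_pure]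
  filter_upwards [eventually_gt_atTop i] with m hm
  simp [trunc, hm]

instance neBot_BG : (𝓝[≠] (0 : BG)).NeBot := by
  have h : Tendsto (fun n : ℕ => (Pi.single n 1 : BG)) atTop (𝓝[≠] 0) := by
    rw [tendsto_nhdsWithin_iff]
    constructor
    · rw [tendsto_pi_nhds]
      intro i
      rw [nhds_discrete, tendsto_pure]
      filter_upwards [eventually_gt_atTop i] with m hm
      exact Pi.single_eq_of_ne (by omega) _
    · refine Eventually.of_forall fun n h => ?_
      have := congrFun (show (Pi.single n 1 : BG) = 0 from h) n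
      simp at this
  exact h.neBot

theorem coHopf {H : AddSubgroup BG} (hE : ∀ n : ℕ, Pi.single n 1 ∈ H) (hne : H ≠ ⊤)
    (hkill : ∀ (f : BG → BG) (J : Set BG), J.Countable → (∀ x, x ∉ J → ContinuousAt f x) →
        (∀ y, (f ⁻¹' {y}).Countable) → 𝔠 ≤ #(range (fun x => f x + x)) →
        ∃ x, x ∉ J ∧ x ∉ H ∧ f x ∈ H)
    (u : Sp H → Sp H) (hu : Continuous u) (hinj : Injective u) : Surjective u := by
  classical
  let φ : Sp H → BG := fun p => pr (u p)
  have hφ : Continuous φ := continuous_pr.comp hu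
  let J : Set BG := {x : BG | φ (lft H x 0) ≠ φ (lft H x 1)}
  have hJ : J.Countable := countable_jump φ hφ
  have hlft : ∀ x, x ∉ H → lft H x 0 ≠ lft H x 1 := fun x hx h => by
    have := lft_coord hx 0
    rw [h, lft_coord hx] at this
    exact one_ne_zero this
  let ψ : Sp H → BG := fun p => φ p + pr p
  have hψ : Continuous ψ := hφ.add continuous_pr
  have hRc : IsClosed (range ψ) := (isCompact_range hψ).isClosed
  have hR : (range ψ).Countable := by
    by_contra hcon
    obtain ⟨e, he, -, heinj⟩ := hRc.exists_nat_bool_injection_of_not_countable hcon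
    have h1 : 𝔠 ≤ #(range ψ) := by
      refine le_trans ?_ (mk_le_mk_of_subset he)
      rw [mk_range_eq e heinj]
      simp
    have h2 : 𝔠 ≤ #(range (fun x => φ (lft H x 0) + x)) := by
      by_contra hlt
      push Not at hlt
      have h3 : range ψ ⊆ range (fun x => φ (lft H x 0) + x) ∪ (fun x => φ (lft H x 1) + x) '' J := by
        rintro _ ⟨p, rfl⟩
        rcases eq_lft_cases p with h | h
        · exact Or.inl ⟨pr p, by simp only [ψ]; rw [← h]⟩
        · by_cases hj : pr p ∈ J
          · exact Or.inr ⟨pr p, hj, by simp only [ψ]; rw [← h]⟩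
          · have h4 : φ (lft H (pr p) 0) = φ (lft H (pr p) 1) := not_not.1 hj
            exact Or.inl ⟨pr p, by simp only [ψ]; rw [h4, ← h]⟩
      have h5 : #((fun x => φ (lft H x 1) + x) '' J) < 𝔠 :=
        lt_of_le_of_lt (le_aleph0_iff_set_countable.2 (hJ.image _)) aleph0_lt_continuum
      exact absurd (lt_of_le_of_lt (h1.trans ((mk_le_mk_of_subset h3).trans (mk_union_le _ _)))
        (add_lt_of_lt aleph0_le_continuum hlt h5)) (lt_irrefl _)
    obtain ⟨x, hxJ, hxH, hfx⟩ := hkill (fun x => φ (lft H x 0)) J hJ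
      (fun x hx => continuousAt_of_not_jump φ hφ (not_not.1 hx))
      (fun y => by
        have h6 : ((fun x => u (lft H x 0)) ⁻¹' {lft H y 0, lft H y 1}).Countable := by
          refine (Set.toFinite _).countable.preimage ?_
          intro a b hab
          exact congrArg pr (hinj hab)
        refine h6.mono fun x hx => ?_
        have h7 : pr (u (lft H x 0)) = y := hx
        have := eq_lft_cases (u (lft H x 0))
        rw [h7] at this
        exact this) h2
    have h8 : φ (lft H x 0) = φ (lft H x 1) := not_not.1 hxJ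
    exact hlft x hxH (hinj (Sp_ext h8 fun h => absurd hfx h))
  -- the measure argument
  let μ : Measure BG := Measure.addHaar
  let E : BG → Set BG := fun r => pr '' (ψ ⁻¹' {r})
  let F : BG → Set BG := fun r => φ '' (ψ ⁻¹' {r})
  have hcomp : ∀ r, IsCompact (ψ ⁻¹' {r}) := fun r =>
    (isClosed_singleton.preimage hψ).isCompact
  have hFc : ∀ r, IsClosed (F r) := fun r => ((hcomp r).image hφ).isClosed
  have hφψ : ∀ p, φ p = pr p + ψ p := fun p => by
    simp only [ψ]
    rw [add_comm (φ p), ← add_assoc, BG_add_self, zero_add]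
  have hEF : ∀ r, E r = (fun x => x + r) ⁻¹' F r := by
    intro r
    ext x
    constructor
    · rintro ⟨p, hp, rfl⟩
      exact ⟨p, hp, by rw [hφψ, show ψ p = r from hp]⟩
    · rintro ⟨p, hp, hpx⟩
      refine ⟨p, hp, ?_⟩
      rw [hφψ, show ψ p = r from hp] at hpx
      exact add_right_cancel hpx
  have hμEF : ∀ r, μ (E r) = μ (F r) := fun r => by
    rw [hEF, measure_preimage_add_right]
  have hdisj : ∀ r s, r ≠ s → μ (F r ∩ F s) = 0 := by
    intro r s hrs
    rw [← measure_preimage_add_right μ r]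
    set C := (fun x => x + r) ⁻¹' (F r ∩ F s) with hC
    have hCm : MeasurableSet C :=
      (((hFc r).inter (hFc s)).preimage (continuous_add_const r)).measurableSet
    have hsub : C \ J ⊆ H := by
      rintro x ⟨⟨⟨p, hp, hpx⟩, ⟨q, hq, hqx⟩⟩, hxJ⟩
      by_contra hxH
      have hp1 : pr p = x := by
        rw [hφψ, show ψ p = r from hp] at hpx
        exact add_right_cancel hpx
      have hq1 : pr q ≠ x := fun h => by
        rw [hφψ, show ψ q = s from hq, h] at hqx
        exact hrs (add_left_cancel hqx).symm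
      have h8 : φ (lft H x 0) = φ (lft H x 1) := not_not.1 hxJ
      have h9 : φ (lft H x 0) = x + r := by
        rcases eq_lft_cases p with h | h
        · rw [← hp1, ← h, hp1]; exact hpx
        · rw [h8, ← hp1, ← h, hp1]; exact hpx
      have ha := eq_lft_cases (u (lft H x 0))
      have hb := eq_lft_cases (u (lft H x 1))
      have hc := eq_lft_cases (u q)
      have ha' : pr (u (lft H x 0)) = x + r := h9
      have hb' : pr (u (lft H x 1)) = x + r := h8.symm.trans h9
      have hc' : pr (u q) = x + r := hqx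
      rw [ha'] at ha
      rw [hb'] at hb
      rw [hc'] at hc
      have n1 : u (lft H x 0) ≠ u (lft H x 1) := fun h => hlft x hxH (hinj h)
      have n2 : u (lft H x 0) ≠ u q := fun h => hq1 (congrArg pr (hinj h)).symm
      have n3 : u (lft H x 1) ≠ u q := fun h => hq1 (congrArg pr (hinj h)).symm
      rcases ha with ha | ha <;> rcases hb with hb | hb <;> rcases hc with hc | hc
      all_goals first
        | exact n1 (ha.trans hb.symm)
        | exact n2 (ha.trans hc.symm)
        | exact n3 (hb.trans hc.symm)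
    have h0 : μ (C \ J) = 0 := by
      by_contra hpos
      exact hne (eq_top_of_pos hE μ (hCm.diff hJ.measurableSet) hsub (pos_iff_ne_zero.2 hpos))
    rwa [measure_sdiff_null (hJ.measure_zero μ)] at h0
  have hcount : Countable (range ψ) := hR.to_subtype
  have hge : μ Set.univ ≤ μ (range φ) := by
    have h1 : (Set.univ : Set BG) ⊆ ⋃ r : range ψ, E r := fun x _ =>
      mem_iUnion.2 ⟨⟨ψ (lft H x 0), _, rfl⟩, lft H x 0, rfl, rfl⟩
    have h2 : (⋃ r : range ψ, F r) ⊆ range φ := iUnion_subset fun r => image_subset_range _ _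
    calc μ Set.univ ≤ μ (⋃ r : range ψ, E r) := measure_mono h1
      _ ≤ ∑' r : range ψ, μ (E r) := measure_iUnion_le _
      _ = ∑' r : range ψ, μ (F r) := by simp only [hμEF]
      _ = μ (⋃ r : range ψ, F r) := by
        refine (measure_iUnion₀ (f := fun r : range ψ => F r) ?_
          fun r => (hFc r).measurableSet.nullMeasurableSet).symm
        intro r s hrs
        exact hdisj r s fun h => hrs (Subtype.ext h)
      _ ≤ μ (range φ) := measure_mono h2
  have hφc : IsClosed (range φ) := (isCompact_range hφ).isClosed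
  have hφs : Surjective φ := by
    have h1 : μ (range φ)ᶜ = 0 := by
      rw [measure_compl hφc.measurableSet (measure_ne_top _ _)]
      exact tsub_eq_zero_of_le hge
    have h2 := (hφc.isOpen_compl.measure_eq_zero_iff μ).1 h1
    rw [compl_empty_iff] at h2
    exact range_eq_univ.1 h2
  intro p
  by_contra hp
  have hO : IsOpen (range u)ᶜ := (isCompact_range hu).isClosed.isOpen_compl
  obtain ⟨z, hz, hzO⟩ := exists_lft_mem hE hO (p := p) hp
  obtain ⟨q, hq⟩ := hφs z
  exact hzO ⟨q, Sp_ext hq fun h => absurd (show φ q ∈ H from hq ▸ hz) h⟩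

theorem exists_counterexample :
    ∃ (H : AddSubgroup BG), (∀ x y : Sp H, ∃ h : Sp H ≃ₜ Sp H, h x = y) ∧
      ∀ u : Sp H → Sp H, Continuous u → Injective u → Surjective u := by
  obtain ⟨H, hE, hne, hkill⟩ := exists_good_subgroup
  exact ⟨H, homogeneous_Sp hE, coHopf hE hne hkill⟩

end Pool.Agent.MP_a8721e_gt
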