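import Pool.Agent.Mg.S13724.G8d135c

/-! The criterion for boundedness of the semigroup of continuous self-maps. -/

set_option autoImplicit false

open Set Filter Topology Function Cardinal

namespace Pool.Agent.MP_a8721e_gt.Crit

variable {X : Type} [TopologicalSpace X]

open Classical in
/-- `a` on `V` and `b` elsewhere -/
noncomputable def gl {Y Z : Type} (V : Set Y) (a b : Y → Z) : Y → Z :=
  fun x => if x ∈ V then a x else b x

theorem gl_in {Y Z : Type} {V : Set Y} (a b : Y → Z) {x : Y} (h : x ∈ V) : gl V a b x = a x :=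
  if_pos h

theorem gl_out {Y Z : Type} {V : Set Y} (a b : Y → Z) {x : Y} (h : x ∉ V) : gl V a b x = b x :=
  if_neg h

theorem gl_cont {Y : Type} [TopologicalSpace Y] {V : Set X} (hV : IsClopen V) {a b : X → Y}
    (ha : Continuous a) (hb : Continuous b) : Continuous (gl V a b) := by
  classical
  refine Continuous.if (fun x hx => ?_) ha hb
  have h : frontier {x | x ∈ V} = ∅ := hV.frontier_eq
  rw [h] at hx
  exact hx.elim

/-- zero-dimensional and homogeneous -/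
structure ZH (X : Type) [TopologicalSpace X] : Prop where
  hb : TopologicalSpace.IsTopologicalBasis {s : Set X | IsClopen s}
  hom : ∀ x y : X, ∃ h : X ≃ₜ X, h x = y

/-- a retract copy of the space that misses the clopen set `K` -/
structure Ret (j g : X → X) (K : Set X) : Prop where
  cj : Continuous j
  cg : Continuous g
  gj : ∀ x, g (j x) = x
  cl : IsClopen K
  out : ∀ x, j x ∉ K

/-- the space is homeomorphic to a proper retract -/
def ND (X : Type) [TopologicalSpace X] : Prop :=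
  ∃ g j : X → X, Continuous g ∧ Continuous j ∧ g ∘ j = id ∧ j ∘ g ≠ id

theorem basic {U : Set (X → X)} (hU : U ∈ 𝓝 (id : X → X)) : ∃ (E : Set X) (t : X → Set X),
    E.Finite ∧ (∀ x, t x ∈ 𝓝 x) ∧ ∀ u : X → X, (∀ x ∈ E, u x ∈ t x) → u ∈ U := by
  rw [nhds_pi, Filter.mem_pi] at hU
  obtain ⟨E, hE, t, ht, hsub⟩ := hU
  exact ⟨E, t, hE, ht, fun u hu => hsub hu⟩

theorem ZH.clopen (Z : ZH X) {x : X} {s : Set X} (hs : s ∈ 𝓝 x) :
    ∃ V, IsClopen V ∧ x ∈ V ∧ V ⊆ s := by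
  obtain ⟨V, h1, h2, h3⟩ := Z.hb.mem_nhds_iff.1 hs
  exact ⟨V, h1, h2, h3⟩

variable [T2Space X] [CompactSpace X]

theorem ZH.move (Z : ZH X) {T : Set X} (hT : T.Infinite) {E : Set X} (hE : E.Finite) :
    ∃ h : X ≃ₜ X, MapsTo h E T := by
  induction E, hE using Set.Finite.induction_on with
  | empty => exact ⟨Homeomorph.refl X, mapsTo_empty _ _⟩
  | @insert a E ha hE ih =>
    obtain ⟨h, hh⟩ := ih
    obtain ⟨k, hkT, hk⟩ := hT.exists_notMem_finite ((hE.insert a).image h)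
    obtain ⟨m, hm⟩ := Z.hom (h a) k
    have hne : h a ≠ k := fun e => hk ⟨a, mem_insert _ _, e⟩
    obtain ⟨s, s1, s2⟩ := swap_lemma Z.hb (hm ▸ LocEquiv.ofHomeo m (h a) : LocEquiv (h a) k) hne
      (O := (h '' E)ᶜ) (hE.image h).isClosed.isOpen_compl
      (fun ⟨b, hb, e⟩ => ha (h.injective e ▸ hb)) (fun ⟨b, hb, e⟩ => hk ⟨b, Or.inr hb, e⟩)
    refine ⟨h.trans s, ?_⟩
    rintro x (rfl | hx)
    · change s (h x) ∈ T
      rwa [s1]
    · change s (h x) ∈ T
      rw [s2 _ (not_not.2 ⟨x, hx, rfl⟩)]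
      exact hh hx

omit [T2Space X] in
theorem ZH.cover (Z : ZH X) {V : Set X} (hV : IsOpen V) (hne : V.Nonempty) :
    ∃ H : Finset (X ≃ₜ X), ∀ y, ∃ h ∈ H, h y ∈ V := by
  obtain ⟨p, hp⟩ := hne
  obtain ⟨H, hH⟩ := isCompact_univ.elim_finite_subcover (fun h : X ≃ₜ X => h ⁻¹' V)
    (fun h => hV.preimage h.continuous) fun y _ => by
      obtain ⟨h, hh⟩ := Z.hom y p
      exact mem_iUnion.2 ⟨h, by rw [mem_preimage, hh]; exact hp⟩
  exact ⟨H, fun y => by simpa using hH (mem_univ y)⟩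

theorem ZH.left_aux (Z : ZH X) (t : X → Set X) (ht : ∀ x, t x ∈ 𝓝 x) {j g : X → X} {E : Set X}
    (hE : E.Finite) : ∀ K, Ret j g K → E ⊆ K → ∃ F : Set (X → X), F.Finite ∧
      (∀ γ ∈ F, Continuous γ) ∧ ∀ f : X → X, Continuous f → ∃ γ ∈ F, ∃ u : X → X, Continuous u ∧
        f = γ ∘ u ∧ (∀ x ∈ E, u x ∈ t x) ∧ ∀ y, u y ∈ K ∪ range j := by
  induction E, hE using Set.Finite.induction_on with
  | empty =>
    intro K R _
    refine ⟨{g}, finite_singleton _, fun γ h => h ▸ R.cg, fun f hf => ⟨g, rfl, j ∘ f,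
      R.cj.comp hf, funext fun y => (R.gj _).symm, fun x h => h.elim, fun y => Or.inr ⟨_, rfl⟩⟩⟩
  | @insert a E ha hE ih =>
    intro K R hK
    obtain ⟨V, hV, haV, hsub⟩ := Z.clopen (inter_mem (inter_mem (ht a)
      (R.cl.isOpen.mem_nhds (hK (mem_insert _ _)))) (hE.isClosed.isOpen_compl.mem_nhds ha))
    obtain ⟨F, hF, hc, hall⟩ := ih (K \ V)
      ⟨R.cj, R.cg, R.gj, R.cl.diff hV, fun x h => R.out x h.1⟩
      fun x hx => ⟨hK (Or.inr hx), fun h => (hsub h).2 hx⟩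
    obtain ⟨H, hH⟩ := Z.cover hV.isOpen ⟨a, haV⟩
    refine ⟨image2 (fun (h : X ≃ₜ X) γ => gl V h.symm γ) H F, H.finite_toSet.image2 _ hF, ?_,
      fun f hf => ?_⟩
    · rintro _ ⟨h, -, γ, hγ, rfl⟩
      exact gl_cont hV h.symm.continuous (hc γ hγ)
    obtain ⟨γ, hγ, u, hu, e, h1, h2⟩ := hall f hf
    obtain ⟨h, hh, hfa⟩ := hH (f a)
    have hW : IsClopen (V ∩ (h ∘ f) ⁻¹' V) := hV.inter (hV.preimage (h.continuous.comp hf))
    refine ⟨gl V h.symm γ, ⟨h, hh, γ, hγ, rfl⟩, gl (V ∩ (h ∘ f) ⁻¹' V) (h ∘ f) u,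
      gl_cont hW (h.continuous.comp hf) hu, funext fun y => ?_, ?_, fun y => ?_⟩
    · by_cases hy : y ∈ V ∩ (h ∘ f) ⁻¹' V
      · rw [comp_apply, gl_in _ _ hy, gl_in (V := V) (x := (h ∘ f) y) _ _ hy.2]
        exact (h.symm_apply_apply _).symm
      · have h3 : u y ∉ V := fun h4 => by
          rcases h2 y with h5 | ⟨z, h5⟩
          · exact h5.2 h4
          · exact R.out z (h5 ▸ (hsub h4).1.2)
        rw [comp_apply, gl_out _ _ hy, gl_out _ _ h3]
        exact congrFun e y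
    · rintro x (rfl | hx)
      · rw [gl_in _ _ (mem_inter haV hfa)]
        exact (hsub hfa).1.1
      · rw [gl_out _ _ fun h3 => (hsub h3.1).2 hx]
        exact h1 x hx
    · by_cases hy : y ∈ V ∩ (h ∘ f) ⁻¹' V
      · rw [gl_in _ _ hy]
        exact Or.inl (hsub hy.2).1.2
      · rw [gl_out _ _ hy]
        exact (h2 y).imp_left fun h3 => h3.1

/-- the sum of the space and of `A` is a retract of the space -/
def Good (A : Set X) : Prop :=
  ∃ (j g s : X → X) (P : Set X), Ret j g P ∧ Continuous s ∧ ∀ a ∈ A, s a ∈ P ∧ g (s a) = a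

omit [T2Space X] [CompactSpace X] in
theorem good_base {j g : X → X} {K : Set X} (R : Ret j g K) (h : X ≃ₜ X) : Good (h ⁻¹' K) :=
  ⟨j, gl K h.symm g, h, K, ⟨R.cj, gl_cont R.cl h.symm.continuous R.cg,
    fun x => by rw [gl_out _ _ (R.out x), R.gj], R.cl, R.out⟩, h.continuous,
    fun a ha => ⟨ha, by rw [gl_in (V := K) (x := h a) _ _ ha, h.symm_apply_apply]⟩⟩

omit [T2Space X] [CompactSpace X] in
theorem good_union {A B : Set X} (hA : IsClopen A) (h1 : Good A) (h2 : Good B) :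
    Good (A ∪ B) := by
  obtain ⟨j, g, s, P, R, hs, h1⟩ := h1
  obtain ⟨j', g', s', P', R', hs', h2⟩ := h2
  refine ⟨j ∘ j', gl P g (g' ∘ g), gl A s (j ∘ s'), P ∪ g ⁻¹' P', ⟨R.cj.comp R'.cj,
    gl_cont R.cl R.cg (R'.cg.comp R.cg), fun x => ?_, R.cl.union (R'.cl.preimage R.cg),
    fun x hx => ?_⟩, gl_cont hA hs (R.cj.comp hs'), fun a ha => ?_⟩
  · rw [comp_apply, gl_out _ _ (R.out _), comp_apply, R.gj, R'.gj]
  · rcases hx with hx | hx
    · exact R.out _ hx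
    · rw [mem_preimage, comp_apply, R.gj] at hx
      exact R'.out _ hx
  · by_cases h : a ∈ A
    · rw [gl_in _ _ h, gl_in _ _ (h1 a h).1]
      exact ⟨Or.inl (h1 a h).1, (h1 a h).2⟩
    · have hb := h2 a (ha.resolve_left h)
      rw [gl_out _ _ h, comp_apply, gl_out _ _ (R.out _), comp_apply, R.gj]
      exact ⟨Or.inr (by rw [mem_preimage, R.gj]; exact hb.1), hb.2⟩

omit [T2Space X] in
theorem ZH.double (Z : ZH X) {j g : X → X} {K : Set X} (R : Ret j g K) (hne : K.Nonempty) :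
    ∃ (r : X → X × Bool) (i : X × Bool → X), Continuous r ∧ Continuous i ∧ r ∘ i = id := by
  classical
  obtain ⟨H, hH⟩ := Z.cover R.cl.isOpen hne
  have h1 : ∀ H : Finset (X ≃ₜ X), Good (⋃ h ∈ H, h ⁻¹' K) := fun H => by
    induction H using Finset.induction_on with
    | empty => exact ⟨j, g, j, K, R, R.cj, fun a ha => by simp at ha⟩
    | insert h H _ ih =>
      rw [Finset.set_biUnion_insert]
      exact good_union (R.cl.preimage h.continuous) (good_base R h) ih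
  obtain ⟨j, g, s, P, R, hs, h2⟩ := h1 H
  have h3 : ∀ a, s a ∈ P ∧ g (s a) = a := fun a => h2 a (by simpa using hH a)
  have hc : IsClopen {p : X × Bool | p.2 = true} :=
    (isClopen_discrete {true}).preimage continuous_snd
  refine ⟨fun x => (g x, gl P (fun _ => true) (fun _ => false) x),
    gl {p | p.2 = true} (s ∘ Prod.fst) (j ∘ Prod.fst),
    R.cg.prodMk (gl_cont R.cl continuous_const continuous_const),
    gl_cont hc (hs.comp continuous_fst) (R.cj.comp continuous_fst), funext ?_⟩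
  rintro ⟨x, _ | _⟩
  · rw [comp_apply, gl_out _ _ (by simp), comp_apply, gl_out _ _ (R.out _), R.gj]
    rfl
  · rw [comp_apply, gl_in _ _ (by simp), comp_apply, gl_in _ _ (h3 _).1, (h3 _).2]
    rfl

omit [T2Space X] [CompactSpace X] in
theorem nd_of_double {r : X → X × Bool} {i : X × Bool → X} [Nonempty X] (hr : Continuous r)
    (hi : Continuous i) (h : r ∘ i = id) : ND X := by
  refine ⟨Prod.fst ∘ r, fun x => i (x, false), continuous_fst.comp hr,
    hi.comp (continuous_id.prodMk continuous_const),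
    funext fun x => congrArg Prod.fst (congrFun h (x, false)), fun e => ?_⟩
  obtain ⟨x⟩ : Nonempty X := inferInstance
  have h1 := congrArg r (congrFun e (i (x, true)))
  have h2 : ∀ p, r (i p) = p := congrFun h
  simp only [comp_apply, id, h2] at h1
  simp at h1

theorem retr {Y : Type} [TopologicalSpace Y] [CompactSpace Y] [Nonempty Y] {c : Y → ℕ → Bool}
    (hc : Continuous c) (hi : Injective c) :
    ∃ ρ : (ℕ → Bool) → Y, Continuous ρ ∧ ∀ y, ρ (c y) = y := by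
  have he := hc.isClosedEmbedding hi
  obtain ⟨f, h1, -, h2⟩ :=
    PiNat.exists_retraction_subtype_of_isClosed he.isClosed_range (range_nonempty c)
  refine ⟨he.isEmbedding.toHomeomorph.symm ∘ f,
    he.isEmbedding.toHomeomorph.symm.continuous.comp h2, fun y => ?_⟩
  rw [comp_apply, h1 ⟨c y, y, rfl⟩]
  exact he.isEmbedding.toHomeomorph.symm_apply_apply y

theorem mk_finset_le (α : Type) : #(Finset α) ≤ max ℵ₀ #α := by
  classical
  exact (mk_le_of_surjective List.toFinset_surjective).trans (mk_list_le_max α)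

omit [T2Space X] in
theorem card_clopen {𝒜 : Set (Set X)} (hc : ∀ A ∈ 𝒜, IsClopen A)
    (hs : ∀ y z : X, y ≠ z → ∃ A ∈ 𝒜, y ∈ A ∧ z ∉ A) :
    #{s : Set X | IsClopen s} ≤ max ℵ₀ #𝒜 := by
  let B : Finset 𝒜 → Set X := fun l => ⋂ A ∈ l, A.1
  have hB : ∀ l, IsOpen (B l) := fun l => isOpen_biInter_finset fun A _ => (hc A.1 A.2).isOpen
  have h1 : {s : Set X | IsClopen s} ⊆ range fun L : Finset (Finset 𝒜) => ⋃ l ∈ L, B l := by
    intro C hC
    have hC : IsClopen C := hC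
    have h2 : ∀ y : C, ∃ l, y.1 ∈ B l ∧ B l ⊆ C := fun y => by
      obtain ⟨l, hl⟩ := hC.compl.isClosed.isCompact.elim_finite_subcover
        (fun A : {A : 𝒜 // y.1 ∈ A.1} => A.1.1ᶜ) (fun A => (hc _ A.1.2).compl.isOpen)
        fun z hz => by
          obtain ⟨A, a1, a2, a3⟩ := hs y z fun e => hz (e ▸ y.2)
          exact mem_iUnion.2 ⟨⟨⟨A, a1⟩, a2⟩, a3⟩
      refine ⟨l.map (Embedding.subtype _), mem_iInter₂.2 fun A hA => ?_, fun z hz => ?_⟩
      · obtain ⟨A', -, rfl⟩ := Finset.mem_map.1 hA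
        exact A'.2
      · by_contra hzC
        obtain ⟨A, hA, h3⟩ := mem_iUnion₂.1 (hl hzC)
        exact h3 (mem_iInter₂.1 hz _ (Finset.mem_map_of_mem _ hA))
    choose l hl1 hl2 using h2
    obtain ⟨L, hL⟩ := hC.isClosed.isCompact.elim_finite_subcover (fun y : C => B (l y))
      (fun y => hB _) fun y hy => mem_iUnion.2 ⟨⟨y, hy⟩, hl1 _⟩
    classical
    refine ⟨L.image l, subset_antisymm (iUnion₂_subset fun m hm => ?_) fun y hy => ?_⟩
    · obtain ⟨y, -, rfl⟩ := Finset.mem_image.1 hm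
      exact hl2 y
    · obtain ⟨z, hz, h3⟩ := mem_iUnion₂.1 (hL hy)
      exact mem_iUnion₂.2 ⟨l z, Finset.mem_image_of_mem _ hz, h3⟩
  refine (mk_le_mk_of_subset h1).trans (mk_range_le.trans ((mk_finset_le _).trans ?_))
  exact max_le (le_max_left _ _) (mk_finset_le _)

omit [T2Space X] [CompactSpace X] in
theorem inv_of_not_nd (h : ¬ND X) {g j : X → X} (hg : Continuous g) (hj : Continuous j)
    (e : ∀ x, g (j x) = x) (x : X) : j (g x) = x := by
  by_contra hx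
  exact h ⟨g, j, hg, hj, funext e, fun e' => hx (congrFun e' x)⟩

variable [Infinite X]

theorem ZH.inf_open (Z : ZH X) {O : Set X} (hO : IsOpen O) (hne : O.Nonempty) : O.Infinite := by
  intro hf
  obtain ⟨p, hp⟩ := hne
  have h1 : IsOpen ({p} : Set X) := isOpen_singleton_of_finite_mem_nhds p (hO.mem_nhds hp) hf
  have : DiscreteTopology X := discreteTopology_iff_isOpen_singleton.2 fun y => by
    obtain ⟨h, rfl⟩ := Z.hom p y
    simpa using h.isOpenMap _ h1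
  have : Finite X := finite_of_compact_of_discrete
  exact not_finite X

theorem ZH.ret (Z : ZH X) (h : ND X) {E : Set X} (hE : E.Finite) :
    ∃ j g K, Ret j g K ∧ K.Nonempty ∧ E ⊆ K := by
  obtain ⟨g, j, hg, hj, e, hne⟩ := h
  have e' : ∀ x, g (j x) = x := congrFun e
  obtain ⟨p, hp⟩ := Function.ne_iff.1 hne
  obtain ⟨K, hK, hpK, hsub⟩ := Z.clopen
    ((isOpen_ne_fun (hj.comp hg) continuous_id).mem_nhds (x := p) hp)
  obtain ⟨h, hh⟩ := Z.move (Z.inf_open hK.isOpen ⟨p, hpK⟩) hE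
  refine ⟨h.symm ∘ j, g ∘ h, h ⁻¹' K, ⟨h.symm.continuous.comp hj, hg.comp h.continuous,
    fun x => by simp [e'], hK.preimage h.continuous, fun x hx => ?_⟩,
    ⟨h.symm p, by simpa using hpK⟩, hh⟩
  have h1 : j x ∈ K := by simpa using hx
  exact hsub h1 (by simp [e'])

theorem ZH.left (Z : ZH X) (h : ND X) {U : Set (X → X)} (hU : U ∈ 𝓝 (id : X → X)) :
    ∃ F : Set (X → X), F.Finite ∧ (∀ g ∈ F, Continuous g) ∧
      ∀ f : X → X, Continuous f → ∃ g ∈ F, ∃ u ∈ U, Continuous u ∧ f = g ∘ u := by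
  obtain ⟨E, t, hE, ht, hsub⟩ := basic hU
  obtain ⟨j, g, K, R, -, hK⟩ := Z.ret h hE
  obtain ⟨F, h1, h2, h3⟩ := Z.left_aux t ht hE K R hK
  refine ⟨F, h1, h2, fun f hf => ?_⟩
  obtain ⟨γ, hγ, u, hu, e, h4, -⟩ := h3 f hf
  exact ⟨γ, hγ, u, hsub u h4, hu, e⟩

theorem ZH.right (Z : ZH X) (h : ND X) {U : Set (X → X)} (hU : U ∈ 𝓝 (id : X → X)) :
    ∃ g : X → X, Continuous g ∧
      ∀ f : X → X, Continuous f → ∃ u ∈ U, Continuous u ∧ f = u ∘ g := by
  obtain ⟨E, t, hE, ht, hsub⟩ := basic hU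
  obtain ⟨j, g, K, R, -, hK⟩ := Z.ret h hE
  refine ⟨j, R.cj, fun f hf => ⟨gl K id (f ∘ g), hsub _ fun x hx => ?_,
    gl_cont R.cl continuous_id (hf.comp R.cg), funext fun y => ?_⟩⟩
  · rw [gl_in _ _ (hK hx)]
    exact mem_of_mem_nhds (ht x)
  · rw [comp_apply, gl_out _ _ (R.out y), comp_apply, R.gj]

omit [CompactSpace X] in
theorem ZH.pair (Z : ZH X) : ∃ (x₁ x₂ : X) (V : Set X), x₁ ≠ x₂ ∧ IsClopen V ∧ x₁ ∈ V ∧ x₂ ∉ V ∧
    {u : X → X | u x₁ ∈ V ∧ u x₂ ∉ V} ∈ 𝓝 (id : X → X) := by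
  obtain ⟨x₁, x₂, hx⟩ := exists_pair_ne X
  obtain ⟨V, hV, h1, h2⟩ := Z.clopen (isOpen_compl_singleton.mem_nhds (x := x₁) hx)
  have h3 : x₂ ∉ V := fun h => h2 h rfl
  have a1 : {u : X → X | u x₁ ∈ V} ∈ 𝓝 (id : X → X) :=
    (continuous_apply x₁).continuousAt.preimage_mem_nhds (hV.isOpen.mem_nhds h1)
  have a2 : {u : X → X | u x₂ ∈ Vᶜ} ∈ 𝓝 (id : X → X) :=
    (continuous_apply x₂).continuousAt.preimage_mem_nhds (hV.compl.isOpen.mem_nhds h3)
  exact ⟨x₁, x₂, V, hx, hV, h1, h3, inter_mem a1 a2⟩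

theorem ZH.nd_of_two (Z : ZH X) {x₁ x₂ : X} {V : Set X} {F : Set (X → X)} (hF : F.Finite)
    (hc : ∀ g ∈ F, Continuous g) (hall : ∀ h : X ≃ₜ X, ∃ g ∈ F, ∃ g' ∈ F, ∃ u : X → X,
      Continuous u ∧ u x₁ ∈ V ∧ u x₂ ∉ V ∧ ⇑h = g ∘ u ∘ g') : ND X := by
  by_contra hn
  have : Finite F := hF.to_subtype
  obtain ⟨τ, hτ⟩ := Finite.exists_infinite_fiber fun y : X => fun g : F => y ∈ g.1 '' V
  obtain ⟨h, hh⟩ := Z.move (infinite_coe_iff.1 hτ)
    ((hF.image fun g => invFun g x₁).union (hF.image fun g => invFun g x₂))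
  obtain ⟨g, hg, g', hg', u, cu, hu1, hu2, e⟩ := hall h
  have e' : ∀ x, h x = g (u (g' x)) := congrFun e
  have h1 : Surjective g' := fun y => ⟨_, inv_of_not_nd hn (g := h.symm ∘ g ∘ u)
    (h.symm.continuous.comp ((hc g hg).comp cu)) (hc g' hg')
    (fun x => h.symm_apply_eq.2 (e' x).symm) y⟩
  have h2 : Injective g := LeftInverse.injective (inv_of_not_nd hn (j := u ∘ g' ∘ h.symm)
    (hc g hg) (cu.comp ((hc g' hg').comp h.symm.continuous))
    fun x => (e' _).symm.trans (h.apply_symm_apply x))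
  have a1 := congrFun (hh (Or.inl ⟨g', hg', rfl⟩)) ⟨g, hg⟩
  have a2 := congrFun (hh (Or.inr ⟨g', hg', rfl⟩)) ⟨g, hg⟩
  simp only [e', invFun_eq (h1 _)] at a1 a2
  obtain ⟨v, hv, a3⟩ : g (u x₂) ∈ g '' V := by
    rw [a2, ← a1]
    exact ⟨_, hu1, rfl⟩
  exact hu2 (h2 a3 ▸ hv)

theorem ZH.nd_of_countable (Z : ZH X) {𝒜 : Set (Set X)} (hc : ∀ A ∈ 𝒜, IsClopen A)
    (hs : ∀ y z : X, y ≠ z → ∃ A ∈ 𝒜, y ∈ A ∧ z ∉ A) (h : 𝒜.Countable) : ND X := by
  obtain ⟨x₁, x₂, K, hx, hK, h1, h2, -⟩ := Z.pair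
  obtain ⟨A₀, hA₀, -⟩ := hs x₁ x₂ hx
  obtain ⟨A, rfl⟩ := h.exists_eq_range ⟨A₀, hA₀⟩
  let e : X → ℕ → Bool := fun x n => (A n).boolIndicator x
  have ce : Continuous e := continuous_pi fun n =>
    (continuous_boolIndicator_iff_isClopen _).2 (hc _ ⟨n, rfl⟩)
  have ie : Injective e := fun y z hyz => by
    by_contra hne
    obtain ⟨_, ⟨n, rfl⟩, a1, a2⟩ := hs y z hne
    exact a2 ((mem_iff_boolIndicator _ _).2
      ((congrFun hyz n).symm.trans ((mem_iff_boolIndicator _ _).1 a1)))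
  have hun : ¬(e '' K).Countable := fun hcount => by
    have h3 : K.Countable := countable_of_injective_of_countable_image ie.injOn hcount
    have h4 : Dense (⋂ y ∈ K, ({y}ᶜ : Set X)) := dense_biInter_of_isOpen
      (fun _ _ => isOpen_compl_singleton) h3 fun y _ => by
        rw [← interior_eq_empty_iff_dense_compl]
        by_contra h5
        exact Z.inf_open isOpen_interior (nonempty_iff_ne_empty.2 h5)
          ((finite_singleton y).subset interior_subset)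
    obtain ⟨y, a1, a2⟩ := h4.inter_open_nonempty K hK.isOpen ⟨x₁, h1⟩
    exact mem_iInter₂.1 a2 y a1 rfl
  have : PolishSpace (ℕ → Bool) := { }
  obtain ⟨c, hcK, cc, ic⟩ :=
    (hK.isClosed.isCompact.image ce).isClosed.exists_nat_bool_injection_of_not_countable hun
  obtain ⟨ρ, cρ, hρ⟩ := retr ce ie
  obtain ⟨σ, cσ, hσ⟩ := retr cc ic
  have h6 : ∀ w, ρ (c w) ∈ K ∧ e (ρ (c w)) = c w := fun w => by
    obtain ⟨k, hk, h7⟩ := hcK ⟨w, rfl⟩
    rw [← h7, hρ]
    exact ⟨hk, rfl⟩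
  refine ⟨ρ ∘ σ ∘ e, ρ ∘ c ∘ e, cρ.comp (cσ.comp ce), cρ.comp (cc.comp ce), funext fun x => ?_,
    fun h7 => h2 ?_⟩
  · simp only [comp_apply, (h6 _).2, hσ, hρ, id]
  · have h8 : ρ (c (e (ρ (σ (e x₂))))) = x₂ := congrFun h7 x₂
    rw [← h8]
    exact (h6 _).1

theorem ZH.nd_of_small (Z : ZH X) {x₁ x₂ : X} {V : Set X} {F : Set (X → X)} (hV : IsClopen V)
    (hx : x₁ ≠ x₂) (hF : F.Countable ∨ #F < #{s : Set X | IsClopen s})
    (hc : ∀ g ∈ F, Continuous g) (hall : ∀ h : X ≃ₜ X, ∃ g ∈ F, ∃ u : X → X,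
      Continuous u ∧ u x₁ ∈ V ∧ u x₂ ∉ V ∧ ⇑h = g ∘ u) : ND X := by
  by_contra hn
  let 𝒜 : Set (Set X) := (fun g => g '' V) '' F ∩ {s | IsClopen s}
  have hs : ∀ y z : X, y ≠ z → ∃ A ∈ 𝒜, y ∈ A ∧ z ∉ A := fun y z hyz => by
    obtain ⟨h, h1, h2⟩ := two_transitive Z.hb Z.hom hx hyz
    obtain ⟨g, hg, u, cu, hu1, hu2, e⟩ := hall h
    have e' : ∀ x, h x = g (u x) := congrFun e
    have a1 : ∀ x, g ((u ∘ h.symm) x) = x := fun x => (e' _).symm.trans (h.apply_symm_apply x)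
    have a2 := inv_of_not_nd hn (hc g hg) (cu.comp h.symm.continuous) a1
    have a3 : g '' V = (u ∘ h.symm) ⁻¹' V := congrFun (image_eq_preimage_of_inverse a2 a1) V
    refine ⟨g '' V, ⟨⟨g, hg, rfl⟩, ?_⟩, ⟨u x₁, hu1, by rw [← e', h1]⟩, ?_⟩
    · rw [a3]
      exact hV.preimage (cu.comp h.symm.continuous)
    · rw [a3, ← h2, mem_preimage, comp_apply, h.symm_apply_apply]
      exact hu2
  refine hn (Z.nd_of_countable (fun A hA => hA.2) hs ?_)
  rcases hF with hF | hF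
  · exact (hF.image _).mono inter_subset_left
  · have a1 : #𝒜 ≤ #F := (mk_le_mk_of_subset inter_subset_left).trans mk_image_le
    have a2 := (a1.trans_lt hF).trans_le (card_clopen (fun A hA => hA.2) hs)
    exact le_aleph0_iff_set_countable.1 ((lt_max_iff.1 a2).resolve_right (lt_irrefl _)).le

end Pool.Agent.MP_a8721e_gt.Crit
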